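import Pool.Agent.H356R3.HT.SIGN

/-!
# The function `Qf n` is strictly decreasing on `(0, ∞)`
-/

set_option autoImplicit false
open MeasureTheory Set Pointwise

namespace Pool.Agent.Y514.TL

open Pool.Agent.H356R3.HT

/-- the integrand after the substitution `y = 1 / a` -/
noncomputable def pz (n : ℕ) (y z : ℝ) : ℝ := (1 - 1 / √(1 + 4 * gz n z * y)) / z

/-- its derivative -/
noncomputable def qz (n : ℕ) (y z : ℝ) : ℝ := 2 * (1 - z) ^ n / √(1 + 4 * gz n z * y) ^ 3

theorem w_ge {n : ℕ} {y z : ℝ} (hy : 0 < y) (h0 : 0 ≤ z) (h1 : z ≤ 1) :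
    1 ≤ √(1 + 4 * gz n z * y) := by
  rw [Real.one_le_sqrt]
  have := SIGNL.gz_nonneg n h0 h1
  have : 0 ≤ 4 * gz n z * y := by positivity
  linarith

theorem w_sq {n : ℕ} {y z : ℝ} (hy : 0 < y) (h0 : 0 ≤ z) (h1 : z ≤ 1) :
    √(1 + 4 * gz n z * y) ^ 2 = 1 + 4 * gz n z * y := by
  apply Real.sq_sqrt
  have := SIGNL.gz_nonneg n h0 h1
  positivity

theorem meas_pz (n : ℕ) (y : ℝ) : Measurable (pz n y) := by
  unfold pz gz
  fun_prop

theorem meas_qz (n : ℕ) (y : ℝ) : Measurable (qz n y) := by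
  unfold qz gz
  fun_prop

theorem qz_cont (n : ℕ) {y : ℝ} (hy : 0 < y) : ContinuousOn (qz n y) (Icc 0 1) := by
  have hg : Continuous (gz n) := by unfold gz; fun_prop
  unfold qz
  refine ContinuousOn.div (by fun_prop) (by fun_prop) fun z hz => ?_
  have := w_ge (n := n) hy hz.1 hz.2
  positivity

theorem bound_pz (n : ℕ) {y z : ℝ} (hy : 0 < y) (h0 : 0 < z) (h1 : z ≤ 1) :
    ‖pz n y z‖ ≤ 4 * y := by
  have hw := w_ge (n := n) hy h0.le h1
  have hw2 := w_sq (n := n) hy h0.le h1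
  have hg := SIGNL.gz_nonneg n h0.le h1
  have hg2 := SIGNL.gz_le n h0.le h1
  unfold pz
  set w := √(1 + 4 * gz n z * y) with hwd
  have e : (1 - 1 / w) / z = (w - 1) / (w * z) := by field_simp
  rw [e, Real.norm_eq_abs, abs_of_nonneg (div_nonneg (by linarith) (by positivity)),
    div_le_iff₀ (by positivity)]
  have h2 : w - 1 ≤ w ^ 2 - 1 := by nlinarith
  have h3 : w ^ 2 - 1 ≤ 4 * z * y := by
    rw [hw2]
    nlinarith
  have h4 : 4 * z * y ≤ 4 * y * (w * z) := by
    have : 0 < y * z := by positivity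
    nlinarith
  linarith

theorem bound_qz (n : ℕ) {y z : ℝ} (hy : 0 < y) (h0 : 0 < z) (h1 : z ≤ 1) :
    ‖qz n y z‖ ≤ 2 := by
  have hw := w_ge (n := n) hy h0.le h1
  unfold qz
  have h2 : (1 - z) ^ n ≤ 1 := pow_le_one₀ (by linarith) (by linarith)
  have h3 : 0 ≤ (1 - z) ^ n := pow_nonneg (by linarith) n
  have h4 : 1 ≤ √(1 + 4 * gz n z * y) ^ 3 := one_le_pow₀ hw
  rw [Real.norm_eq_abs, abs_of_nonneg (by positivity), div_le_iff₀ (by positivity)]
  nlinarith

theorem hasDeriv_pz (n : ℕ) {y z : ℝ} (hy : 0 < y) (h0 : 0 < z) (h1 : z ≤ 1) :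
    HasDerivAt (fun x => pz n x z) (qz n y z) y := by
  have hw := w_ge (n := n) hy h0.le h1
  have hw2 := w_sq (n := n) hy h0.le h1
  have hne : 1 + 4 * gz n z * y ≠ 0 := by
    rw [← hw2]
    positivity
  have e1 : HasDerivAt (fun x : ℝ => 1 + 4 * gz n z * x) (4 * gz n z) y := by
    have := ((hasDerivAt_id y).const_mul (4 * gz n z)).const_add 1
    simpa using this
  have hw0 : √(1 + 4 * gz n z * y) ≠ 0 := by positivity
  have e2 := (e1.sqrt hne).inv hw0
  have e3 := ((e2.const_sub 1).div_const z)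
  have e4 : (fun x => pz n x z) = fun x => (1 - (√(1 + 4 * gz n z * x))⁻¹) / z := by
    funext x
    unfold pz
    rw [one_div]
  rw [e4]
  refine e3.congr_deriv ?_
  unfold qz
  have hgz : gz n z = z * (1 - z) ^ n := rfl
  field_simp
  rw [hgz]
  ring

/-- the integral as a function of `y` -/
noncomputable def Fy (n : ℕ) (y : ℝ) : ℝ := ∫ z in (0:ℝ)..1, pz n y z

theorem hasDeriv_Fy (n : ℕ) {y : ℝ} (hy : 0 < y) :
    HasDerivAt (Fy n) (∫ z in (0:ℝ)..1, qz n y z) y := by
  unfold Fy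
  have hI : ∀ z : ℝ, z ∈ Set.uIoc (0:ℝ) 1 → 0 < z ∧ z ≤ 1 := by
    intro z hz
    rw [uIoc_of_le zero_le_one] at hz
    exact hz
  refine (intervalIntegral.hasDerivAt_integral_of_dominated_loc_of_deriv_le
    (F := pz n) (F' := qz n) (bound := fun _ => 2) (s := Ioi 0)
    (Ioi_mem_nhds hy) ?_ ?_ ?_ ?_ ?_ ?_).2
  · exact Filter.Eventually.of_forall fun x => (meas_pz n x).aestronglyMeasurable
  · refine (intervalIntegrable_const (c := 4 * y)).mono_fun'
      (meas_pz n y).aestronglyMeasurable ?_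
    filter_upwards [ae_restrict_mem measurableSet_uIoc] with z hz
    exact bound_pz n hy (hI z hz).1 (hI z hz).2
  · exact (meas_qz n y).aestronglyMeasurable
  · exact Filter.Eventually.of_forall fun z hz x hx => bound_qz n hx (hI z hz).1 (hI z hz).2
  · exact intervalIntegrable_const
  · exact Filter.Eventually.of_forall fun z hz x hx => hasDeriv_pz n hx (hI z hz).1 (hI z hz).2

theorem Q_eq (n : ℕ) {a : ℝ} (_ : 0 < a) : Qf n a = Real.log a⁻¹ - 1 / 2 * Fy n a⁻¹ := by
  unfold Qf Fy pz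
  rw [one_div a]
  simp only [div_eq_mul_inv]

/-- `h (1 + 4 h)^(-3/2) ≤ 1/8` -/
theorem eighth {h : ℝ} (h0 : 0 ≤ h) : h / √(1 + 4 * h) ^ 3 ≤ 1 / 8 := by
  have h1 := SIGNL.quarter (h := 4 * h) (by linarith)
  have h2 : 0 < √(1 + 4 * h) := Real.sqrt_pos.2 (by linarith)
  have h3 : √(1 + 4 * h) ^ 2 = 1 + 4 * h := Real.sq_sqrt (by linarith)
  have h4 : √(1 + 4 * h) ^ 3 = (1 + 4 * h) * √(1 + 4 * h) := by
    rw [pow_succ, h3]
  rw [h4]
  have h5 : 4 * h / (2 * ((1 + 4 * h) * √(1 + 4 * h))) = 2 * (h / ((1 + 4 * h) * √(1 + 4 * h))) := by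
    have : (1 + 4 * h) ≠ 0 := by linarith
    field_simp
    ring
  rw [h5] at h1
  linarith

/-- the primitive -/
noncomputable def Gp (n : ℕ) (y z : ℝ) : ℝ := -(1 / 2) * (√(1 + 4 * gz n z * y))⁻¹

/-- its derivative -/
noncomputable def gp (n : ℕ) (y z : ℝ) : ℝ :=
  y * ((1 - z) ^ n - z * (n * (1 - z) ^ (n - 1))) / √(1 + 4 * gz n z * y) ^ 3

theorem hasDeriv_Gp (n : ℕ) {y z : ℝ} (hy : 0 < y) (h0 : 0 ≤ z) (h1 : z ≤ 1) :
    HasDerivAt (Gp n y) (gp n y z) z := by
  have hw := w_ge (n := n) hy h0 h1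
  have hw2 := w_sq (n := n) hy h0 h1
  have hne : 1 + 4 * gz n z * y ≠ 0 := by
    rw [← hw2]
    positivity
  have d1 : HasDerivAt (fun y : ℝ => 1 - y) (-1) z := by
    simpa using (hasDerivAt_id z).const_sub 1
  have d2 : HasDerivAt (fun y : ℝ => (1 - y) ^ n) ((n : ℝ) * (1 - z) ^ (n - 1) * (-1)) z :=
    d1.pow n
  have d3 : HasDerivAt (gz n)
      (1 * (1 - z) ^ n + z * ((n : ℝ) * (1 - z) ^ (n - 1) * (-1))) z := (hasDerivAt_id z).mul d2
  have d4 := ((d3.const_mul 4).mul_const y).const_add 1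
  have hw0 : √(1 + 4 * gz n z * y) ≠ 0 := by positivity
  have d5 := ((d4.sqrt hne).inv hw0).const_mul (-(1 / 2))
  unfold Gp
  refine d5.congr_deriv ?_
  unfold gp
  field_simp
  ring

theorem gp_cont (n : ℕ) {y : ℝ} (hy : 0 < y) : ContinuousOn (gp n y) (Icc 0 1) := by
  have hg : Continuous (gz n) := by unfold gz; fun_prop
  unfold gp
  refine ContinuousOn.div (by fun_prop) (by fun_prop) fun z hz => ?_
  have := w_ge (n := n) hy hz.1 hz.2
  positivity

theorem int_gp (n : ℕ) {y u v : ℝ} (hy : 0 < y) (h0 : 0 ≤ u) (huv : u ≤ v) (h1 : v ≤ 1) :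
    IntervalIntegrable (gp n y) volume u v ∧ ∫ z in u..v, gp n y z = Gp n y v - Gp n y u := by
  have hint : IntervalIntegrable (gp n y) volume u v := by
    apply ContinuousOn.intervalIntegrable
    rw [uIcc_of_le huv]
    exact (gp_cont n hy).mono (Icc_subset_Icc h0 h1)
  refine ⟨hint, intervalIntegral.integral_eq_sub_of_hasDerivAt (fun z hz => ?_) hint⟩
  rw [uIcc_of_le huv] at hz
  exact hasDeriv_Gp n hy (h0.trans hz.1) (hz.2.trans h1)

theorem int_qz (n : ℕ) {y u v : ℝ} (hy : 0 < y) (h0 : 0 ≤ u) (huv : u ≤ v) (h1 : v ≤ 1) :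
    IntervalIntegrable (qz n y) volume u v := by
  apply ContinuousOn.intervalIntegrable
  rw [uIcc_of_le huv]
  exact (qz_cont n hy).mono (Icc_subset_Icc h0 h1)

/-- The main inequality. -/
theorem main_lt {n : ℕ} (hn : 1 ≤ n) {y : ℝ} (hy : 0 < y) :
    y * (1 / 2 * ∫ z in (0:ℝ)..1, qz n y z) < 1 := by
  have hn0 : (0:ℝ) < n := by exact_mod_cast hn
  obtain ⟨z1, hz1⟩ : ∃ z1 : ℝ, z1 = 1 / (n + 1) := ⟨_, rfl⟩
  obtain ⟨z2, hz2⟩ : ∃ z2 : ℝ, z2 = 5 / (n + 5) := ⟨_, rfl⟩
  have h01 : 0 < z1 := by rw [hz1]; positivity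
  have h12 : z1 ≤ z2 := by
    rw [hz1, hz2, div_le_div_iff₀ (by positivity) (by positivity)]
    linarith
  have h21 : z2 ≤ 1 := by
    rw [hz2, div_le_one (by positivity)]
    linarith
  have h11 : z1 ≤ 1 := h12.trans h21
  have h02 : 0 < z2 := h01.trans_le h12
  have i1 := int_qz n hy le_rfl h01.le h11
  have i2 := int_qz n hy h01.le h12 h21
  have i3 := int_qz n hy h02.le h21 le_rfl
  have hsplit : ∫ z in (0:ℝ)..1, qz n y z = (∫ z in (0:ℝ)..z1, qz n y z) +
      (∫ z in z1..z2, qz n y z) + ∫ z in z2..1, qz n y z := by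
    rw [intervalIntegral.integral_add_adjacent_intervals i1 i2,
      intervalIntegral.integral_add_adjacent_intervals (i1.trans i2) i3]
  -- the values of the primitive
  have hG0 : Gp n y 0 = -(1 / 2) := by
    unfold Gp gz
    simp
  have hG1 : Gp n y 1 = -(1 / 2) := by
    unfold Gp gz
    have : n ≠ 0 := by omega
    simp [this]
  have hGneg : ∀ z ∈ Icc (0:ℝ) 1, Gp n y z < 0 := by
    intro z hz
    have hw := w_ge (n := n) hy hz.1 hz.2
    have : 0 < (√(1 + 4 * gz n z * y))⁻¹ := by positivity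
    unfold Gp
    linarith
  -- region 1
  have r1 : y * (1 / 2 * ∫ z in (0:ℝ)..z1, qz n y z) < 1 / 2 + 1 / 8 := by
    obtain ⟨j1, j2⟩ := int_gp n hy le_rfl h01.le h11
    have hmono : ∫ z in (0:ℝ)..z1, y * (1 / 2 * qz n y z) ≤
        ∫ z in (0:ℝ)..z1, (gp n y z + (n + 1) / 8) := by
      refine intervalIntegral.integral_mono_on h01.le ((i1.const_mul _).const_mul _)
        (j1.add intervalIntegrable_const) fun z hz => ?_
      have hz1' : z ≤ 1 := hz.2.trans h11
      have hw := w_ge (n := n) hy hz.1 hz1'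
      have hg := SIGNL.gz_nonneg n hz.1 hz1'
      have hlt : z ≤ 1 / (n + 1) := by rw [← hz1]; exact hz.2
      have h1z : (n : ℝ) / (n + 1) ≤ 1 - z := by
        have : (n : ℝ) / (n + 1) = 1 - 1 / (n + 1) := by field_simp; ring
        rw [this]
        linarith
      have h1z0 : 0 < 1 - z := lt_of_lt_of_le (by positivity) h1z
      have h8 := eighth (h := y * gz n z) (by positivity)
      have e8 : 1 + 4 * (y * gz n z) = 1 + 4 * gz n z * y := by ring
      rw [e8] at h8
      have e1 : y * (1 / 2 * qz n y z) - gp n y z =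
          (y * gz n z / √(1 + 4 * gz n z * y) ^ 3) * (n / (1 - z)) := by
        unfold qz gp
        obtain ⟨m, rfl⟩ : ∃ m, n = m + 1 := ⟨n - 1, by omega⟩
        rw [Nat.add_sub_cancel]
        have hgz : gz (m + 1) z = z * (1 - z) ^ (m + 1) := rfl
        have hw0 : √(1 + 4 * gz (m + 1) z * y) ≠ 0 := by positivity
        have h1z0' : 1 - z ≠ 0 := h1z0.ne'
        field_simp
        rw [hgz]
        ring
      have e2 : (n : ℝ) / (1 - z) ≤ n + 1 := by
        rw [div_le_iff₀ h1z0]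
        rw [div_le_iff₀ (by positivity)] at h1z
        linarith
      have e3 : (y * gz n z / √(1 + 4 * gz n z * y) ^ 3) * (n / (1 - z)) ≤ 1 / 8 * (n + 1) :=
        mul_le_mul h8 e2 (by positivity) (by norm_num)
      linarith
    rw [intervalIntegral.integral_const_mul, intervalIntegral.integral_const_mul,
      intervalIntegral.integral_add j1 intervalIntegrable_const, j2,
      intervalIntegral.integral_const, hG0, smul_eq_mul] at hmono
    have e4 : (z1 - 0) * (((n : ℝ) + 1) / 8) = 1 / 8 := by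
      rw [hz1]
      field_simp
      ring
    have := hGneg z1 ⟨h01.le, h11⟩
    linarith
  -- region 2
  have r2 : y * (1 / 2 * ∫ z in z1..z2, qz n y z) < 2 / 8 := by
    have hint : IntervalIntegrable (fun z : ℝ => 1 / 8 * z⁻¹) volume z1 z2 := by
      apply IntervalIntegrable.const_mul
      apply intervalIntegral.intervalIntegrable_inv _ continuousOn_id
      intro z hz
      rw [uIcc_of_le h12] at hz
      exact (h01.trans_le hz.1).ne'
    have hmono : ∫ z in z1..z2, y * (1 / 2 * qz n y z) ≤ ∫ z in z1..z2, 1 / 8 * z⁻¹ := by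
      refine intervalIntegral.integral_mono_on h12 ((i2.const_mul _).const_mul _) hint
        fun z hz => ?_
      have hz0 : 0 < z := h01.trans_le hz.1
      have hz1' : z ≤ 1 := hz.2.trans h21
      have hw := w_ge (n := n) hy hz0.le hz1'
      have hg := SIGNL.gz_nonneg n hz0.le hz1'
      have h8 := eighth (h := y * gz n z) (by positivity)
      have e8 : 1 + 4 * (y * gz n z) = 1 + 4 * gz n z * y := by ring
      rw [e8] at h8
      have e1 : y * (1 / 2 * qz n y z) = (y * gz n z / √(1 + 4 * gz n z * y) ^ 3) * z⁻¹ := by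
        unfold qz
        have hgz : gz n z = z * (1 - z) ^ n := rfl
        have hw0 : √(1 + 4 * gz n z * y) ≠ 0 := by positivity
        field_simp
        rw [hgz]
      rw [e1]
      exact mul_le_mul_of_nonneg_right h8 (inv_pos.2 hz0).le
    rw [intervalIntegral.integral_const_mul, intervalIntegral.integral_const_mul,
      intervalIntegral.integral_const_mul, integral_inv_of_pos h01 h02] at hmono
    have hlog : Real.log (z2 / z1) < 2 := by
      have h5 : z2 / z1 ≤ 5 := by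
        rw [div_le_iff₀ h01, hz1, hz2, mul_one_div, div_le_div_iff₀ (by positivity) (by positivity)]
        nlinarith
      have h6 : (5:ℝ) < Real.exp 2 := by
        have e4 : Real.exp 2 = Real.exp 1 ^ 2 := by
          rw [← Real.exp_nat_mul]
          norm_num
        rw [e4]
        have h7 : (2.7:ℝ) ≤ Real.exp 1 := by linarith [Real.exp_one_gt_d9]
        calc (5:ℝ) < 2.7 ^ 2 := by norm_num
          _ ≤ Real.exp 1 ^ 2 := pow_le_pow_left₀ (by norm_num) h7 2
      rw [Real.log_lt_iff_lt_exp (by positivity)]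
      linarith
    linarith
  -- region 3
  have r3 : y * (1 / 2 * ∫ z in z2..1, qz n y z) < 1 / 8 := by
    obtain ⟨j1, j2⟩ := int_gp n hy h02.le h21 le_rfl
    have hmono : ∫ z in z2..1, y * (1 / 2 * qz n y z) ≤ ∫ z in z2..1, (-(1 / 4)) * gp n y z := by
      refine intervalIntegral.integral_mono_on h21 ((i3.const_mul _).const_mul _)
        (j1.const_mul _) fun z hz => ?_
      have hz0 : 0 < z := h02.trans_le hz.1
      have hw := w_ge (n := n) hy hz0.le hz.2
      have hz5 : 5 ≤ (n + 5) * z := by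
        have := hz.1
        rw [hz2, div_le_iff₀ (by positivity)] at this
        linarith
      obtain ⟨m, hm⟩ : ∃ m, n = m + 1 := ⟨n - 1, by omega⟩
      have e1 : (-(1 / 4)) * gp n y z - y * (1 / 2 * qz n y z) =
          y * (1 - z) ^ m * (((n : ℝ) + 5) * z - 5) / 4 / √(1 + 4 * gz n z * y) ^ 3 := by
        unfold qz gp
        have hw0 : √(1 + 4 * gz n z * y) ≠ 0 := by positivity
        have e2 : n - 1 = m := by omega
        rw [e2]
        have e3 : (1 - z) ^ n = (1 - z) ^ m * (1 - z) := by rw [hm, pow_succ]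
        rw [e3]
        field_simp
        ring
      have e4 : 0 ≤ y * (1 - z) ^ m * (((n : ℝ) + 5) * z - 5) / 4 / √(1 + 4 * gz n z * y) ^ 3 := by
        have : 0 ≤ (1 - z) ^ m := pow_nonneg (by linarith [hz.2]) m
        have : 0 ≤ ((n : ℝ) + 5) * z - 5 := by linarith
        positivity
      linarith
    rw [intervalIntegral.integral_const_mul, intervalIntegral.integral_const_mul,
      intervalIntegral.integral_const_mul, j2, hG1] at hmono
    have := hGneg z2 ⟨h02.le, h21⟩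
    linarith
  rw [hsplit]
  have e : y * (1 / 2 * ((∫ z in (0:ℝ)..z1, qz n y z) +
      (∫ z in z1..z2, qz n y z) + ∫ z in z2..1, qz n y z)) =
      y * (1 / 2 * ∫ z in (0:ℝ)..z1, qz n y z) + y * (1 / 2 * ∫ z in z1..z2, qz n y z) +
      y * (1 / 2 * ∫ z in z2..1, qz n y z) := by ring
  rw [e]
  linarith

theorem hasDeriv_Q (n : ℕ) {y : ℝ} (hy : 0 < y) :
    HasDerivAt (fun y => Real.log y - 1 / 2 * Fy n y) (y⁻¹ - 1 / 2 * ∫ z in (0:ℝ)..1, qz n y z) y :=
  (Real.hasDerivAt_log hy.ne').sub ((hasDeriv_Fy n hy).const_mul (1 / 2))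

theorem mono_y {n : ℕ} (hn : 1 ≤ n) :
    StrictMonoOn (fun y => Real.log y - 1 / 2 * Fy n y) (Ioi 0) := by
  refine strictMonoOn_of_deriv_pos (convex_Ioi 0) ?_ ?_
  · intro y hy
    exact (hasDeriv_Q n hy).continuousAt.continuousWithinAt
  · intro y hy
    rw [interior_Ioi] at hy
    have hy' : 0 < y := hy
    rw [(hasDeriv_Q n hy').deriv]
    have h := main_lt hn hy'
    have h2 : 0 < y * (y⁻¹ - 1 / 2 * ∫ z in (0:ℝ)..1, qz n y z) := by
      rw [mul_sub, mul_inv_cancel₀ hy'.ne']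
      linarith
    exact pos_of_mul_pos_right h2 hy'.le

/-- `Qf n` is strictly decreasing on `(0, ∞)`. -/
theorem Q_anti' {n : ℕ} (hn : 1 ≤ n) : StrictAntiOn (Qf n) (Ioi 0) := by
  intro a ha b hb hab
  have ha' : (0:ℝ) < a := ha
  have hb' : (0:ℝ) < b := hb
  have ha2 : a⁻¹ ∈ Ioi (0:ℝ) := inv_pos.2 ha'
  have hb2 : b⁻¹ ∈ Ioi (0:ℝ) := inv_pos.2 hb'
  rw [Q_eq n ha', Q_eq n hb']
  exact mono_y hn hb2 ha2 ((inv_lt_inv₀ hb' ha').2 hab)

theorem Q_cont' (n : ℕ) : ContinuousOn (Qf n) (Ioi 0) := by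
  have h1 : ContinuousOn (fun a : ℝ => Real.log a⁻¹ - 1 / 2 * Fy n a⁻¹) (Ioi 0) := by
    intro a ha
    have ha' : (0:ℝ) < a := ha
    have h2 : ContinuousAt (fun y => Real.log y - 1 / 2 * Fy n y) a⁻¹ :=
      (hasDeriv_Q n (inv_pos.2 ha')).continuousAt
    exact (ContinuousAt.comp (f := fun a : ℝ => a⁻¹) h2
      (continuousAt_inv₀ ha'.ne')).continuousWithinAt
  exact h1.congr fun a ha => Q_eq n ha

theorem Q_at (n : ℕ) {σ : ℝ} (hσ : 0 < σ) : Qf n σ + Real.log σ < 0 := by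
  unfold Qf
  rw [SIGNL.int_eq n hσ]
  have h1 : 0 < ∫ z in (0:ℝ)..1, SIGNL.ps n σ z := by
    apply intervalIntegral.intervalIntegral_pos_of_pos_on
      (SIGNL.ps_int n hσ le_rfl zero_le_one le_rfl) _ one_pos
    intro z hz
    unfold SIGNL.ps
    have h2 := SIGNL.h_nonneg n hσ hz.1.le hz.2.le
    have h3 : 0 < √(1 + 4 * gz n z / σ) := Real.sqrt_pos.2 (by linarith)
    have h4 : 0 < (1 - z) ^ n := pow_pos (by linarith [hz.2]) n
    positivity
  rw [one_div, Real.log_inv]
  linarith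

theorem Q_small (n : ℕ) {σ a : ℝ} (hσ : 0 < σ) (ha : 0 < a) (ha1 : a ≤ 1) (ha6 : a ≤ σ ^ 2 / 6) :
    0 < Qf n a + Real.log σ := by
  unfold Qf
  rw [SIGNL.int_eq n ha]
  have e := intervalIntegral.integral_add_adjacent_intervals
    (SIGNL.ps_int n ha le_rfl (by linarith : (0:ℝ) ≤ a / 2) (by linarith))
    (SIGNL.ps_int n ha (by linarith : (0:ℝ) ≤ a / 2) (by linarith : a / 2 ≤ 1) le_rfl)
  rw [← e]
  have h1 : ∫ z in (0:ℝ)..(a / 2), SIGNL.ps n a z ≤ 1 := by
    have := intervalIntegral.integral_mono_on (by linarith : (0:ℝ) ≤ a / 2)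
      (SIGNL.ps_int n ha le_rfl (by linarith : (0:ℝ) ≤ a / 2) (by linarith))
      (intervalIntegrable_const (c := 2 / a))
      (fun z hz => SIGNL.ps_le n ha hz.1 (by linarith [hz.2]))
    rw [intervalIntegral.integral_const, smul_eq_mul] at this
    have e2 : (a / 2 - 0) * (2 / a) = 1 := by field_simp; ring
    linarith
  have h2 : ∫ z in (a / 2)..1, SIGNL.ps n a z ≤ Real.log (2 / a) := by
    have := intervalIntegral.integral_mono_on (by linarith : a / 2 ≤ 1)
      (SIGNL.ps_int n ha (by linarith : (0:ℝ) ≤ a / 2) (by linarith : a / 2 ≤ 1) le_rfl)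
      (g := fun z => z⁻¹) (intervalIntegral.intervalIntegrable_inv (fun z hz => by
        rw [uIcc_of_le (by linarith)] at hz
        have := hz.1
        linarith) continuousOn_id)
      (fun z hz => SIGNL.ps_le' n ha (by linarith [hz.1]) hz.2)
    rw [integral_inv_of_pos (by linarith) one_pos] at this
    have e2 : 1 / (a / 2) = 2 / a := by field_simp
    rwa [e2] at this
  have h3 : Real.log (2 / a) = Real.log 2 + Real.log (1 / a) := by
    rw [← Real.log_mul (by norm_num) (by positivity)]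
    congr 1
    ring
  have h4 : 1 + Real.log 2 < Real.log (1 / a) + 2 * Real.log σ := by
    have h5 : Real.log (2 * 3) ≤ Real.log (1 / a * σ ^ 2) := by
      apply Real.log_le_log (by norm_num)
      rw [div_mul_eq_mul_div, le_div_iff₀ ha]
      linarith
    rw [Real.log_mul (by norm_num) (by norm_num), Real.log_mul (by positivity) (by positivity),
      Real.log_pow] at h5
    have h6 : 1 < Real.log 3 := by
      rw [Real.lt_log_iff_exp_lt (by norm_num)]
      linarith [Real.exp_one_lt_d9]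
    push_cast at h5
    linarith
  linarith

/-- `a` solves the equation `Qf n a + log σ = 0` -/
def IsCritS (n : ℕ) (σ a : ℝ) : Prop := 0 < a ∧ Qf n a + Real.log σ = 0

theorem crit_exists {n : ℕ} (hn : 1 ≤ n) {σ : ℝ} (hσ : 0 < σ) : ∃ a, IsCritS n σ a := by
  obtain ⟨b, hb⟩ : ∃ b : ℝ, b = min 1 (σ ^ 2) / 6 := ⟨_, rfl⟩
  have hm : 0 < min 1 (σ ^ 2) := lt_min one_pos (by positivity)
  have hm1 : min 1 (σ ^ 2) ≤ 1 := min_le_left _ _
  have hm2 : min 1 (σ ^ 2) ≤ σ ^ 2 := min_le_right _ _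
  have hb0 : 0 < b := by rw [hb]; positivity
  have h1 : 0 < Qf n b + Real.log σ := Q_small n hσ hb0 (by linarith) (by linarith)
  have h2 := Q_at n hσ
  have hbσ : b ≤ σ := by
    rcases le_total σ 1 with h | h
    · have : σ ^ 2 ≤ σ := by nlinarith
      linarith
    · linarith
  have hc : ContinuousOn (fun a => Qf n a + Real.log σ) (Icc b σ) :=
    ((Q_cont' n).mono fun a ha => hb0.trans_le ha.1).add continuousOn_const
  obtain ⟨a, ha, hQ⟩ := intermediate_value_Icc' hbσ hc ⟨h2.le, h1.le⟩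
  exact ⟨a, hb0.trans_le ha.1, hQ⟩

theorem crit_uniqueS {n : ℕ} (hn : 1 ≤ n) {σ : ℝ} (hσ : 0 < σ) : ∃! a, IsCritS n σ a := by
  obtain ⟨a, ha⟩ := crit_exists hn hσ
  refine ⟨a, ha, fun b hb => ?_⟩
  exact (Q_anti' hn).injOn hb.1 ha.1 (by linarith [ha.2, hb.2])

theorem crit_lt {n : ℕ} (hn : 1 ≤ n) {σ a : ℝ} (hσ : 0 < σ) (ha : IsCritS n σ a) : a < σ := by
  by_contra h
  push Not at h
  have h1 := (Q_anti' hn).antitoneOn (a := σ) hσ ha.1 h
  have h2 := Q_at n hσ
  linarith [ha.2]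

end Pool.Agent.Y514.TL
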