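import Pool.Agent.H356R3.HT.PAR
import Pool.Agent.H356R3.HT.FG
import Pool.Agent.H356R3.HT.LOW
import Pool.Agent.Y514.TL.Sign

/-!
# The extremal pair of functions, for every parameter
-/

set_option autoImplicit false
open MeasureTheory Set Pointwise

namespace Pool.Agent.Y514.TL

open Pool.Agent.H356R3.HT

open PARL in
theorem parT (n : ℕ) {a : ℝ} (ha : 0 < a) :
    TT n a 1 = 1 ∧ ContinuousOn (TT n a) (Icc 0 1) ∧
    StrictMonoOn (TT n a) (Icc 0 1) ∧ StrictMonoOn (tt n a) (Icc 0 1) ∧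
    (∀ z ∈ Ioo (0:ℝ) 1, HasDerivAt (TT n a) (TT n a z * xx n a z / ((1 + 2 * xx n a z) * z)) z ∧
      HasDerivAt (tt n a) (tt n a z * (1 + xx n a z) / ((1 + 2 * xx n a z) * z)) z) := by
  have hTeq : ∀ z ∈ Icc (0:ℝ) 1, TT n a z = Real.exp (-(1 / 2 * ∫ w in z..1, Hf n a w)) := by
    intro z hz
    rw [TT, PP_eq n ha hz.1 hz.2]
  have hpos : ∀ z, 0 < TT n a z := fun z => Real.exp_pos _
  have hT1 : TT n a 1 = 1 := by
    unfold TT PP
    simp
  have hTc : ContinuousOn (TT n a) (Icc 0 1) := by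
    refine ContinuousOn.congr ?_ hTeq
    have := cont_int n a
    fun_prop
  have hs : ∀ z ∈ Ioo (0:ℝ) 1, 1 < √(1 + 4 * gz n z / a) := by
    intro z hz
    have hg := gz_pos n hz.1 hz.2
    rw [Real.lt_sqrt (by norm_num)]
    have : 0 < 4 * gz n z / a := by positivity
    linarith
  have hTd : ∀ z ∈ Ioo (0:ℝ) 1,
      HasDerivAt (TT n a) (TT n a z * xx n a z / ((1 + 2 * xx n a z) * z)) z := by
    intro z hz
    have h1 : HasDerivAt (fun z => Real.exp (-(1 / 2 * ∫ w in z..1, Hf n a w)))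
        (Real.exp (-(1 / 2 * ∫ w in z..1, Hf n a w)) * (-(1 / 2 * -Hf n a z))) z :=
      (((der_int n a z).const_mul (1 / 2)).neg).exp
    have h2 : TT n a =ᶠ[nhds z] fun z => Real.exp (-(1 / 2 * ∫ w in z..1, Hf n a w)) := by
      filter_upwards [Ioo_mem_nhds hz.1 hz.2] with y hy
      exact hTeq y ⟨hy.1.le, hy.2.le⟩
    have h3 := h1.congr_of_eventuallyEq h2
    refine h3.congr_deriv ?_
    rw [← hTeq z ⟨hz.1.le, hz.2.le⟩, Hf_eq n ha hz.1 hz.2.le]
    unfold xx
    have h4 := hs z hz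
    set s := √(1 + 4 * gz n z / a)
    have hz0 : z ≠ 0 := hz.1.ne'
    have hs0 : s ≠ 0 := by positivity
    have e1 : 1 + 2 * ((s - 1) / 2) = s := by ring
    rw [e1]
    field_simp
  have htd : ∀ z ∈ Ioo (0:ℝ) 1,
      HasDerivAt (tt n a) (tt n a z * (1 + xx n a z) / ((1 + 2 * xx n a z) * z)) z := by
    intro z hz
    have h1 := (hasDerivAt_id z).div (hTd z hz) (hpos z).ne'
    have h2 : (tt n a) = fun z => id z / TT n a z := by
      funext y; rfl
    rw [h2]
    refine h1.congr_deriv ?_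
    have hz0 : z ≠ 0 := hz.1.ne'
    have hT : TT n a z ≠ 0 := (hpos z).ne'
    have hx : 0 < 1 + 2 * xx n a z := by
      unfold xx
      have := hs z hz
      linarith
    have hx' : 1 + 2 * xx n a z ≠ 0 := hx.ne'
    simp only [id]
    exact PARL.alg hx' hz0 hT
  have hxx : ∀ z ∈ Ioo (0:ℝ) 1, 0 < xx n a z := by
    intro z hz
    unfold xx
    have := hs z hz
    linarith
  refine ⟨hT1, hTc, ?_, ?_, fun z hz => ⟨hTd z hz, htd z hz⟩⟩
  · refine strictMonoOn_of_deriv_pos (convex_Icc 0 1) hTc ?_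
    intro z hz
    rw [interior_Icc] at hz
    rw [(hTd z hz).deriv]
    have := hxx z hz
    have := hpos z
    have := hz.1
    positivity
  · refine strictMonoOn_of_deriv_pos (convex_Icc 0 1) ?_ ?_
    · exact continuousOn_id.div hTc (fun z _ => (hpos z).ne')
    · intro z hz
      rw [interior_Icc] at hz
      rw [(htd z hz).deriv]
      have h1 := hxx z hz
      have h2 := hpos z
      have h3 := hz.1
      have h4 : 0 < tt n a z := div_pos h3 h2
      positivity

theorem TT_zero {n : ℕ} {σ a : ℝ} (hσ : 0 < σ) (ha : IsCritS n σ a) : TT n a 0 = a / σ := by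
  obtain ⟨ha0, hQ⟩ := ha
  unfold Qf at hQ
  unfold TT PP
  have : -(1 / 2 * ∫ w in (0:ℝ)..1, (1 - 1 / √(1 + 4 * gz n w / a)) / w) =
      Real.log (a / σ) := by
    rw [Real.log_div ha0.ne' hσ.ne']
    rw [one_div, Real.log_inv] at hQ
    linarith
  rw [this, Real.exp_log (by positivity)]

open FGL in
theorem fgT {n : ℕ} {a : ℝ} (hn : 1 ≤ n) (ha : 0 < a) :
    ∀ z ∈ Icc (0:ℝ) 1, ∀ w ∈ Icc (0:ℝ) 1, tt n a z * TT n a w ≤ 1 ∧
      FF n a z * GG n a w ≤ (1 - tt n a z * TT n a w) ^ n := by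
  obtain ⟨hT1, hTc, hTm, htm, hd⟩ := parT n ha
  have ht1 : tt n a 1 = 1 := by
    unfold tt
    rw [hT1, div_one]
  have m1 : (1:ℝ) ∈ Icc (0:ℝ) 1 := ⟨zero_le_one, le_rfl⟩
  have hTle : ∀ w ∈ Icc (0:ℝ) 1, TT n a w ≤ 1 := fun w hw => by
    rw [← hT1]
    exact hTm.monotoneOn hw m1 hw.2
  have htle : ∀ z ∈ Icc (0:ℝ) 1, tt n a z ≤ 1 := fun z hz => by
    rw [← ht1]
    exact htm.monotoneOn hz m1 hz.2
  have ht0 : ∀ z ∈ Icc (0:ℝ) 1, 0 ≤ tt n a z := fun z hz => div_nonneg hz.1 (T_pos n a z).le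
  -- continuity
  have htc : ContinuousOn (tt n a) (Icc 0 1) :=
    continuousOn_id.div hTc fun z _ => (T_pos n a z).ne'
  have hgc : Continuous (gz n) := by
    unfold gz
    fun_prop
  have hsc : Continuous fun z : ℝ => √(1 + 4 * gz n z / a) := by fun_prop
  have hxc : Continuous (xx n a) := by
    unfold xx
    fun_prop
  have hFc : ContinuousOn (FF n a) (Icc 0 1) := by
    unfold FF
    refine ContinuousOn.mul (ContinuousOn.div (by fun_prop) (by fun_prop) fun z _ => ?_) hTc
    have h := Real.sqrt_nonneg (1 + 4 * gz n z / a)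
    positivity
  have hGc : ContinuousOn (GG n a) (Icc 0 1) := by
    unfold GG
    exact ContinuousOn.div (by fun_prop) hTc fun z _ => (T_pos n a z).ne'
  -- the open case
  have main : ∀ w ∈ Ioo (0:ℝ) 1, ∀ z ∈ Ioo (0:ℝ) 1,
      FF n a z * GG n a w ≤ (1 - tt n a z * TT n a w) ^ n := by
    intro w hw z hz
    have hlt : ∀ y ∈ Ioo (0:ℝ) 1, tt n a y * TT n a w < 1 := by
      intro y hy
      have h1 : tt n a y < 1 := by
        rw [← ht1]
        exact htm (Ioo_subset_Icc_self hy) m1 hy.2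
      have h2 := hTle w (Ioo_subset_Icc_self hw)
      have h3 := T_pos n a w
      nlinarith
    have hD : ∀ y ∈ Ioo (0:ℝ) 1, HasDerivAt (phi n a w) (n * (1 + xx n a y) /
        (1 + 2 * xx n a y) * (TT n a y - TT n a w) / ((1 - y) * (TT n a y - y * TT n a w))) y :=
      fun y hy => phi_deriv hn ha hy.1 hy.2 (hd y hy).1 (hd y hy).2 (hlt y hy)
    have hden : ∀ y ∈ Ioo (0:ℝ) 1, 0 < (1 - y) * (TT n a y - y * TT n a w) := by
      intro y hy
      have h1 := hlt y hy
      have h2 : tt n a y = y / TT n a y := rfl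
      rw [h2, div_mul_eq_mul_div, div_lt_one (T_pos n a y)] at h1
      exact mul_pos (by linarith [hy.2]) (by linarith)
    have hfac : ∀ y ∈ Ioo (0:ℝ) 1, 0 ≤ n * (1 + xx n a y) / (1 + 2 * xx n a y) := by
      intro y hy
      have hx := x_nonneg (n := n) ha hy.1.le hy.2.le
      positivity
    have hmin : phi n a w w ≤ phi n a w z := by
      rcases le_total z w with hzw | hzw
      · have hsub : Icc z w ⊆ Ioo (0:ℝ) 1 := fun y hy =>
          ⟨lt_of_lt_of_le hz.1 hy.1, lt_of_le_of_lt hy.2 hw.2⟩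
        have hanti : AntitoneOn (phi n a w) (Icc z w) := by
          refine antitoneOn_of_deriv_nonpos (convex_Icc z w)
            (fun y hy => (hD y (hsub hy)).continuousAt.continuousWithinAt)
            (fun y hy => (hD y (hsub (interior_subset hy))).differentiableAt.differentiableWithinAt)
            (fun y hy => ?_)
          have hy' := interior_subset hy
          rw [(hD y (hsub hy')).deriv]
          refine div_nonpos_of_nonpos_of_nonneg (mul_nonpos_of_nonneg_of_nonpos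
            (hfac y (hsub hy')) ?_) (hden y (hsub hy')).le
          rw [sub_nonpos]
          exact hTm.monotoneOn (Ioo_subset_Icc_self (hsub hy')) (Ioo_subset_Icc_self hw) hy'.2
        exact hanti ⟨le_rfl, hzw⟩ ⟨hzw, le_rfl⟩ hzw
      · have hsub : Icc w z ⊆ Ioo (0:ℝ) 1 := fun y hy =>
          ⟨lt_of_lt_of_le hw.1 hy.1, lt_of_le_of_lt hy.2 hz.2⟩
        have hmono : MonotoneOn (phi n a w) (Icc w z) := by
          refine monotoneOn_of_deriv_nonneg (convex_Icc w z)
            (fun y hy => (hD y (hsub hy)).continuousAt.continuousWithinAt)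
            (fun y hy => (hD y (hsub (interior_subset hy))).differentiableAt.differentiableWithinAt)
            (fun y hy => ?_)
          have hy' := interior_subset hy
          rw [(hD y (hsub hy')).deriv]
          refine div_nonneg (mul_nonneg (hfac y (hsub hy')) ?_) (hden y (hsub hy')).le
          rw [sub_nonneg]
          exact hTm.monotoneOn (Ioo_subset_Icc_self hw) (Ioo_subset_Icc_self (hsub hy')) hy'.1
        exact hmono ⟨le_rfl, hzw⟩ ⟨hzw, le_rfl⟩ hzw
    -- exponentiate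
    have hFpos : ∀ y ∈ Ioo (0:ℝ) 1, 0 < FF n a y := by
      intro y hy
      rw [FF_eq ha hy.1.le hy.2.le]
      have hx := x_nonneg (n := n) ha hy.1.le hy.2.le
      have hT := T_pos n a y
      have h1 : 0 < 1 - y := by linarith [hy.2]
      positivity
    have hlogF : ∀ y ∈ Ioo (0:ℝ) 1, Real.log (FF n a y) =
        n * Real.log (1 - y) + Real.log (TT n a y) - Real.log a - Real.log (1 + xx n a y) := by
      intro y hy
      rw [FF_eq ha hy.1.le hy.2.le]
      have hx := x_nonneg (n := n) ha hy.1.le hy.2.le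
      have hT := T_pos n a y
      have h1 : 0 < 1 - y := by linarith [hy.2]
      have h2 : 0 < 1 + xx n a y := by positivity
      rw [Real.log_div (by positivity) (by positivity), Real.log_mul (by positivity) hT.ne',
        Real.log_mul ha.ne' h2.ne', Real.log_pow]
      ring
    have hGpos : 0 < GG n a w := by
      unfold GG
      have hx := x_nonneg (n := n) ha hw.1.le hw.2.le
      have hT := T_pos n a w
      positivity
    have hww : tt n a w * TT n a w = w := div_mul_cancel₀ _ (T_pos n a w).ne'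
    have hlogG : Real.log (GG n a w) = phi n a w w + Real.log a := by
      have h1 := FG_eq (n := n) ha hw.1.le hw.2.le
      have h2 := congrArg Real.log h1
      rw [Real.log_mul (hFpos w hw).ne' hGpos.ne', Real.log_pow, hlogF w hw] at h2
      unfold phi
      rw [hww]
      linarith
    have hfin : Real.log (FF n a z) + Real.log (GG n a w) ≤
        n * Real.log (1 - tt n a z * TT n a w) := by
      rw [hlogG, hlogF z hz]
      unfold phi at hmin ⊢
      linarith
    rw [← Real.log_mul (hFpos z hz).ne' hGpos.ne', ← Real.log_pow] at hfin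
    exact (Real.log_le_log_iff (mul_pos (hFpos z hz) hGpos)
      (pow_pos (by linarith [hlt z hz]) n)).1 hfin
  have step1 : ∀ w ∈ Ioo (0:ℝ) 1, ∀ z ∈ Icc (0:ℝ) 1,
      FF n a z * GG n a w ≤ (1 - tt n a z * TT n a w) ^ n := by
    intro w hw
    refine ext_le (hFc.mul continuousOn_const) ?_ (main w hw)
    exact (continuousOn_const.sub (htc.mul continuousOn_const)).pow n
  intro z hz w hw
  refine ⟨?_, ?_⟩
  · have h1 := htle z hz
    have h2 := hTle w hw
    have h3 := T_pos n a w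
    have h4 := ht0 z hz
    nlinarith
  · exact ext_le (F := fun w => FF n a z * GG n a w)
      (G := fun w => (1 - tt n a z * TT n a w) ^ n) (continuousOn_const.mul hGc)
      ((continuousOn_const.sub (continuousOn_const.mul hTc)).pow n)
      (fun w hw => step1 w hw z hz) w hw

open LOWL in
theorem lowT {n : ℕ} (hn : 1 ≤ n) {σ a : ℝ} (hσ : 0 < σ) (hcr : IsCritS n σ a) :
    ∃ f g : ℝ → ℝ,
    Measurable f ∧ Measurable g ∧ f 0 = 1 ∧ (∀ t ∈ Icc (0:ℝ) 1, 0 ≤ f t) ∧
    (∀ s ∈ Icc (0:ℝ) 1, 0 ≤ g s) ∧ (∀ s ∈ Icc (0:ℝ) (a / σ), g s = 1) ∧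
    (∀ t ∈ Icc (0:ℝ) 1, ∀ s ∈ Icc (0:ℝ) 1, f t * g s ≤ (1 - t * s) ^ n) ∧
    ENNReal.ofReal (σ * vI n a) ≤ (∫⁻ t in Icc (0:ℝ) 1, ENNReal.ofReal (f t)) ∧
    ENNReal.ofReal (a / σ * (1 + vI n a)) ≤ ∫⁻ s in Icc (0:ℝ) 1, ENNReal.ofReal (g s) := by
  have hT0 := TT_zero hσ hcr
  have haσ := crit_lt hn hσ hcr
  obtain ⟨ha, -⟩ := hcr
  obtain ⟨hT1, hTc, hTm, htm, hder⟩ := parT n ha
  have hfg := fgT (n := n) hn ha
  obtain ⟨b, hb⟩ : ∃ b : ℝ, b = a / σ := ⟨_, rfl⟩
  rw [← hb] at hT0 ⊢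
  have hb0 : 0 < b := by rw [hb]; positivity
  have hb1 : b < 1 := by rw [hb, div_lt_one hσ]; exact haσ
  have hab : a = σ * b := by rw [hb]; field_simp
  have hσ' : σ ≠ 0 := hσ.ne'
  have i0 : (0:ℝ) ∈ Icc (0:ℝ) 1 := by simp
  have i1 : (1:ℝ) ∈ Icc (0:ℝ) 1 := by simp
  have ht0 : tt n a 0 = 0 := by unfold tt; simp
  have ht1 : tt n a 1 = 1 := by unfold tt; rw [hT1]; simp
  have htc : ContinuousOn (tt n a) (Icc 0 1) := by
    unfold tt
    exact ContinuousOn.div continuousOn_id hTc fun z _ => (TT_pos n a z).ne'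
  have hx0 : xx n a 0 = 0 := by unfold xx gz; simp
  have hF0 : FF n a 0 = σ⁻¹ := by
    unfold FF gz
    rw [hT0]
    simp only [sub_zero, one_pow, mul_zero, zero_div, add_zero, Real.sqrt_one, mul_one]
    rw [hab]
    field_simp
    norm_num
  have hG0 : GG n a 0 = σ := by
    unfold GG
    rw [hx0, hT0, add_zero, mul_one, hab]
    field_simp
  obtain ⟨f, hf⟩ : ∃ f : ℝ → ℝ, f = fun t => σ * cl (FF n a) (ginv (tt n a) t) := ⟨_, rfl⟩
  obtain ⟨g, hg⟩ : ∃ g : ℝ → ℝ, g = fun s => σ⁻¹ * cl (GG n a) (ginv (TT n a) s) := ⟨_, rfl⟩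
  have hft : ∀ z ∈ Icc (0:ℝ) 1, f (tt n a z) = σ * FF n a z := by
    intro z hz
    rw [hf]
    simp only
    rw [ginv_eq htm hz, cl_eq hz]
  have hgt : ∀ z ∈ Icc (0:ℝ) 1, g (TT n a z) = σ⁻¹ * GG n a z := by
    intro z hz
    rw [hg]
    simp only
    rw [ginv_eq hTm hz, cl_eq hz]
  have hglow : ∀ s, s ≤ b → g s = 1 := by
    intro s hs
    rw [hg]
    simp only
    rw [ginv_low hTm (by rw [hT0]; exact hs), cl_eq i0, hG0, inv_mul_cancel₀ hσ']
  have hsurt : ∀ t ∈ Icc (0:ℝ) 1, ∃ z ∈ Icc (0:ℝ) 1, tt n a z = t := by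
    intro t ht
    have := intermediate_value_Icc zero_le_one htc
    rw [ht0, ht1] at this
    exact this ht
  have hsurT : ∀ s ∈ Icc b 1, ∃ z ∈ Icc (0:ℝ) 1, TT n a z = s := by
    intro s hs
    have := intermediate_value_Icc zero_le_one hTc
    rw [hT0, hT1] at this
    exact this hs
  refine ⟨f, g, ?_, ?_, ?_, ?_, ?_, ?_, ?_, ?_, ?_⟩
  · rw [hf]
    exact ((cl_cont (FF_cont ha hTc)).measurable.comp (ginv_mono _).measurable).const_mul σ
  · rw [hg]
    exact ((cl_cont (GG_cont hTc)).measurable.comp (ginv_mono _).measurable).const_mul σ⁻¹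
  · have h := hft 0 i0
    rw [ht0, hF0, mul_inv_cancel₀ hσ'] at h
    exact h
  · intro t _
    rw [hf]
    simp only
    rw [cl_eq (ginv_mem _ _)]
    exact mul_nonneg hσ.le (FF_nonneg ha (ginv_mem _ _))
  · intro s _
    rw [hg]
    simp only
    rw [cl_eq (ginv_mem _ _)]
    exact mul_nonneg (inv_nonneg.2 hσ.le) (GG_nonneg ha (ginv_mem _ _))
  · intro s hs
    exact hglow s hs.2
  · intro t ht s hs
    obtain ⟨z, hz, rfl⟩ := hsurt t ht
    rcases le_total b s with h | h
    · obtain ⟨w, hw, rfl⟩ := hsurT s ⟨h, hs.2⟩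
      rw [hft z hz, hgt w hw]
      have e : σ * FF n a z * (σ⁻¹ * GG n a w) = FF n a z * GG n a w := by
        field_simp
      rw [e]
      exact (hfg z hz w hw).2
    · rw [hft z hz, hglow s h, mul_one]
      have h1 := hfg z hz 0 i0
      rw [hG0, hT0, mul_comm (FF n a z)] at h1
      refine h1.2.trans (pow_le_pow_left₀ (by linarith [h1.1]) ?_ n)
      have := mul_le_mul_of_nonneg_left h ht.1
      linarith
  · -- the integral of `f`
    have hsub : tt n a '' Ioo 0 1 ⊆ Icc 0 1 := by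
      rintro _ ⟨z, hz, rfl⟩
      have hz' := Ioo_subset_Icc_self hz
      refine ⟨?_, ?_⟩
      · rw [← ht0]; exact (htm.le_iff_le i0 hz').2 hz'.1
      · rw [← ht1]; exact (htm.le_iff_le hz' i1).2 hz'.2
    refine le_trans (le_of_eq ?_) (lintegral_mono_set hsub)
    rw [lintegral_image_eq_lintegral_abs_deriv_mul measurableSet_Ioo
      (fun z hz => (hder z hz).2.hasDerivWithinAt)
      (htm.injOn.mono Ioo_subset_Icc_self)]
    have h1 : ∫⁻ z in Ioo (0:ℝ) 1, ENNReal.ofReal
        |tt n a z * (1 + xx n a z) / ((1 + 2 * xx n a z) * z)| *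
        ENNReal.ofReal (f (tt n a z)) =
        ∫⁻ z in Ioo (0:ℝ) 1, ENNReal.ofReal (σ * (1 / a) * ig n a z) := by
      refine setLIntegral_congr_fun measurableSet_Ioo fun z hz => ?_
      have hz' := Ioo_subset_Icc_self hz
      have h2 := xx_nonneg (n := n) ha hz'
      have h3 := TT_pos n a z
      have h4 : 0 ≤ tt n a z * (1 + xx n a z) / ((1 + 2 * xx n a z) * z) := by
        unfold tt
        have := hz.1
        positivity
      have e5 : tt n a z * (1 + xx n a z) / ((1 + 2 * xx n a z) * z) * (σ * FF n a z) =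
          σ * (tt n a z * (1 + xx n a z) / ((1 + 2 * xx n a z) * z) * FF n a z) := by ring
      rw [abs_of_nonneg h4, ← ENNReal.ofReal_mul h4, hft z hz', e5, tt_FF ha hz, mul_assoc]
    rw [h1, lint_ig ha (by positivity), mul_assoc]
    rfl
  · -- the integral of `g`
    have hsub : TT n a '' Ioo 0 1 ⊆ Ioc b 1 := by
      rintro _ ⟨z, hz, rfl⟩
      have hz' := Ioo_subset_Icc_self hz
      refine ⟨?_, ?_⟩
      · have h6 := (hTm.lt_iff_lt i0 hz').2 hz.1
        rwa [hT0] at h6
      · have h6 := (hTm.le_iff_le hz' i1).2 hz'.2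
        rwa [hT1] at h6
    have hun : Icc 0 b ∪ Ioc b 1 = Icc (0:ℝ) 1 := Icc_union_Ioc_eq_Icc hb0.le hb1.le
    have hdis : Disjoint (Icc 0 b) (Ioc b 1) := by
      rw [Set.disjoint_left]
      intro s hs hs'
      exact absurd hs.2 (not_le.2 hs'.1)
    rw [← hun, lintegral_union measurableSet_Ioc hdis]
    have hI1 : ∫⁻ s in Icc (0:ℝ) b, ENNReal.ofReal (g s) = ENNReal.ofReal b := by
      have h1 : ∫⁻ s in Icc (0:ℝ) b, ENNReal.ofReal (g s) = ∫⁻ s in Icc (0:ℝ) b, 1 := by
        refine setLIntegral_congr_fun measurableSet_Icc fun s hs => ?_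
        rw [hglow s hs.2, ENNReal.ofReal_one]
      rw [h1, setLIntegral_one, Real.volume_Icc, sub_zero]
    have hI2 : ENNReal.ofReal (b * vI n a) ≤ ∫⁻ s in Ioc b 1, ENNReal.ofReal (g s) := by
      refine le_trans (le_of_eq ?_) (lintegral_mono_set hsub)
      rw [lintegral_image_eq_lintegral_abs_deriv_mul measurableSet_Ioo
        (fun z hz => (hder z hz).1.hasDerivWithinAt)
        (hTm.injOn.mono Ioo_subset_Icc_self)]
      have h1 : ∫⁻ z in Ioo (0:ℝ) 1, ENNReal.ofReal
          |TT n a z * xx n a z / ((1 + 2 * xx n a z) * z)| *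
          ENNReal.ofReal (g (TT n a z)) =
          ∫⁻ z in Ioo (0:ℝ) 1, ENNReal.ofReal (σ⁻¹ * ig n a z) := by
        refine setLIntegral_congr_fun measurableSet_Ioo fun z hz => ?_
        have hz' := Ioo_subset_Icc_self hz
        have h2 := xx_nonneg (n := n) ha hz'
        have h3 := TT_pos n a z
        have h4 : 0 ≤ TT n a z * xx n a z / ((1 + 2 * xx n a z) * z) := by
          have := hz.1
          positivity
        have e5 : TT n a z * xx n a z / ((1 + 2 * xx n a z) * z) * (σ⁻¹ * GG n a z) =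
            σ⁻¹ * (TT n a z * xx n a z / ((1 + 2 * xx n a z) * z) * GG n a z) := by ring
        rw [abs_of_nonneg h4, ← ENNReal.ofReal_mul h4, hgt z hz', e5, TT_GG ha hz]
      rw [h1, lint_ig ha (inv_nonneg.2 hσ.le)]
      congr 1
      have h5 : vI n a = 1 / a * ∫ z in (0:ℝ)..1, ig n a z := rfl
      rw [h5, hb]
      field_simp
    rw [hI1]
    refine le_trans ?_ (add_le_add (le_refl _) hI2)
    rw [mul_add, mul_one]
    exact ENNReal.ofReal_add_le

end Pool.Agent.Y514.TL
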