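import Pool.Agent.Helper481.MB6
import Pool.Agent.H356R3.HT.Defs

/-!
# Translations of any length: convex hulls of a body and a translate
-/

set_option autoImplicit false
open MeasureTheory Set Pointwise

namespace Pool.Agent.Y514.TL

open Pool.Agent.Helper481.MS
open Pool.Agent.Helper481.MB

/-- the segment from `0` to `t e_0` -/
def segT (n : ℕ) (t : ℝ) : Set (Fin (n + 1) → ℝ) := {x | ∃ s : ℝ, 0 ≤ s ∧ s ≤ t ∧ x = Fin.cons s 0}

theorem fib_add_segT {n : ℕ} {K : Set (Fin (n + 1) → ℝ)} (hK : IsCompact K) (hc : Convex ℝ K)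
    {t : ℝ} (ht : 0 ≤ t) (y : Fin n → ℝ) :
    volume (fib (K + segT n t) y) =
      volume (fib K y) + (proj K).indicator (fun _ => ENNReal.ofReal t) y := by
  have hmem : ∀ u, u ∈ fib (K + segT n t) y ↔ ∃ s, 0 ≤ s ∧ s ≤ t ∧ u - s ∈ fib K y := by
    intro u
    constructor
    · rintro ⟨x, hx, _, ⟨s, hs0, hs2, rfl⟩, hxs⟩
      refine ⟨s, hs0, hs2, ?_⟩
      show (Fin.cons (u - s) y : Fin (n + 1) → ℝ) ∈ K
      have h1 : (Fin.cons (u - s) y : Fin (n + 1) → ℝ) = x := by
        have h2 : x = Fin.cons u y - Fin.cons s 0 := eq_sub_of_add_eq hxs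
        rw [h2]
        ext i
        refine Fin.cases ?_ ?_ i
        · simp
        · intro j
          simp
      rw [h1]
      exact hx
    · rintro ⟨s, hs0, hs2, h⟩
      refine ⟨_, h, _, ⟨s, hs0, hs2, rfl⟩, ?_⟩
      ext i
      refine Fin.cases ?_ ?_ i
      · simp
      · intro j
        simp
  by_cases hy : y ∈ proj K
  · obtain ⟨α, β, hαβ, hF⟩ := fib_Icc hK hc hy
    rw [indicator_of_mem hy]
    have h1 : fib (K + segT n t) y = Icc α (β + t) := by
      ext u
      rw [hmem, hF]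
      constructor
      · rintro ⟨s, hs0, hs2, h1, h2⟩
        constructor <;> linarith
      · rintro ⟨h1, h2⟩
        by_cases h3 : u ≤ β
        · exact ⟨0, le_rfl, ht, by simpa using ⟨h1, h3⟩⟩
        · push Not at h3
          exact ⟨u - β, by linarith, by linarith, by constructor <;> linarith⟩
    rw [h1, hF, Real.volume_Icc, Real.volume_Icc, ← ENNReal.ofReal_add (by linarith) ht]
    congr 1
    ring
  · rw [indicator_of_notMem hy, add_zero]
    have h0 : fib K y = ∅ := by
      by_contra h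
      exact hy (mem_fib_iff.2 (nonempty_iff_ne_empty.2 h))
    have h1 : fib (K + segT n t) y = ∅ := by
      ext u
      rw [hmem, h0]
      simp
    rw [h0, h1]

theorem isCompact_segT (n : ℕ) (t : ℝ) : IsCompact (segT n t) := by
  have h1 : segT n t = (fun s : ℝ => (Fin.cons s 0 : Fin (n + 1) → ℝ)) '' Icc 0 t := by
    ext x
    constructor
    · rintro ⟨s, h0, h2, rfl⟩
      exact ⟨s, ⟨h0, h2⟩, rfl⟩
    · rintro ⟨s, ⟨h0, h2⟩, rfl⟩
      exact ⟨s, h0, h2, rfl⟩
  rw [h1]
  exact isCompact_Icc.image (continuous_cons 0)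

/-- volume of the sum of a convex body and a segment -/
theorem vol_add_segT {n : ℕ} {K : Set (Fin (n + 1) → ℝ)} (hK : IsCompact K) (hc : Convex ℝ K)
    {t : ℝ} (ht : 0 ≤ t) :
    volume (K + segT n t) = volume K + ENNReal.ofReal t * volume (proj K) := by
  rw [vol_fib (hK.add (isCompact_segT n t)).isClosed.measurableSet,
    vol_fib hK.isClosed.measurableSet]
  simp_rw [fib_add_segT hK hc ht]
  rw [lintegral_add_left (meas_fib hK.isClosed.measurableSet),
    lintegral_indicator (proj_compact hK).isClosed.measurableSet]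
  simp

theorem segT_eq (n : ℕ) {t : ℝ} (ht : 0 ≤ t) :
    segT n t = segment ℝ (0 : Fin (n + 1) → ℝ) (Pi.single 0 t) := by
  rw [segment_eq_image]
  ext x
  constructor
  · rintro ⟨s, h0, h2, rfl⟩
    rcases ht.eq_or_lt with h | h
    · have hs : s = 0 := le_antisymm (by linarith) h0
      refine ⟨0, ⟨le_rfl, zero_le_one⟩, ?_⟩
      rw [hs]
      ext i
      refine Fin.cases ?_ ?_ i
      · simp
      · intro j; simp
    · refine ⟨s / t, ⟨by positivity, by rw [div_le_one h]; exact h2⟩, ?_⟩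
      ext i
      refine Fin.cases ?_ ?_ i
      · simp
        field_simp
      · intro j; simp
  · rintro ⟨u, ⟨h0, h1⟩, rfl⟩
    refine ⟨u * t, by positivity, by nlinarith, ?_⟩
    ext i
    refine Fin.cases ?_ ?_ i
    · simp
    · intro j; simp

/-- linear change of variables -/
theorem vol_imageT {n : ℕ} (A : (Fin (n + 1) → ℝ) ≃L[ℝ] (Fin (n + 1) → ℝ))
    (K : Set (Fin (n + 1) → ℝ)) (p : Fin (n + 1) → ℝ) {t : ℝ} (ht : 0 ≤ t)
    (hp : A (Pi.single 0 t) = p) :
    volume (K + segment ℝ 0 p) = ENNReal.ofReal |LinearMap.det (A : (Fin (n + 1) → ℝ) →ₗ[ℝ] _)| *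
      volume (A.symm '' K + segT n t) := by
  rw [← Measure.addHaar_image_continuousLinearEquiv, Set.image_add, Set.image_image, segT_eq n ht]
  have h1 : (fun x => A (A.symm x)) '' K = K := by simp
  have h2 : A '' segment ℝ 0 (Pi.single 0 t) = segment ℝ 0 p := by
    have h3 := image_segment (𝕜 := ℝ) (A : (Fin (n + 1) → ℝ) →ₗ[ℝ] (Fin (n + 1) → ℝ)).toAffineMap
      (0 : Fin (n + 1) → ℝ) (Pi.single 0 t)
    simp only [LinearMap.coe_toAffineMap] at h3
    have h4 : (A : (Fin (n + 1) → ℝ) →ₗ[ℝ] (Fin (n + 1) → ℝ)) (Pi.single 0 t) = p := hp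
    rw [h4, map_zero] at h3
    exact h3
  rw [h1, h2]

/-- The reduction to the first coordinate direction. -/
theorem lin {n : ℕ} {K : Set (Fin (n + 1) → ℝ)} (hK : IsConvexBody K) {t : ℝ} (ht : 0 ≤ t)
    {p : Fin (n + 1) → ℝ} (hp : p ∈ t • relBall K) :
    ∃ A : (Fin (n + 1) → ℝ) ≃L[ℝ] (Fin (n + 1) → ℝ),
      (Pi.single 0 1 : Fin (n + 1) → ℝ) ∈ relBall (A.symm '' K) ∧
      IsConvexBody (relBall (A.symm '' K)) ∧ relBall K = A '' relBall (A.symm '' K) ∧
      volume (convexHull ℝ (K ∪ (p +ᵥ K))) ≤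
        ENNReal.ofReal |LinearMap.det (A : (Fin (n + 1) → ℝ) →ₗ[ℝ] _)| *
          (volume (relBall (A.symm '' K)) +
            ENNReal.ofReal t * volume (proj (relBall (A.symm '' K)))) := by
  have main : ∀ m ∈ relBall K, m ≠ 0 → ∃ A : (Fin (n + 1) → ℝ) ≃L[ℝ] (Fin (n + 1) → ℝ),
      (Pi.single 0 1 : Fin (n + 1) → ℝ) ∈ relBall (A.symm '' K) ∧
      IsConvexBody (relBall (A.symm '' K)) ∧ relBall K = A '' relBall (A.symm '' K) ∧
      volume (convexHull ℝ (K ∪ ((t • m) +ᵥ K))) ≤
        ENNReal.ofReal |LinearMap.det (A : (Fin (n + 1) → ℝ) →ₗ[ℝ] _)| *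
          (volume (relBall (A.symm '' K)) +
            ENNReal.ofReal t * volume (proj (relBall (A.symm '' K)))) := by
    intro m hm hm0
    have hs : (Pi.single 0 (1 : ℝ) : Fin (n + 1) → ℝ) ≠ 0 := by
      intro h
      have := congrFun h 0
      simp at this
    obtain ⟨A, hA⟩ := SeparatingDual.exists_continuousLinearEquiv_apply_eq (R := ℝ) hs hm0
    have h1 : IsCompact (A.symm '' K) := hK.isCompact.image A.symm.continuous
    have h2 : Convex ℝ (A.symm '' K) :=
      hK.convex.linear_image (A.symm : (Fin (n + 1) → ℝ) →ₗ[ℝ] (Fin (n + 1) → ℝ))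
    have hint : (interior (A.symm '' K)).Nonempty := by
      obtain ⟨z, hz⟩ := hK.interior_nonempty
      have h4 := A.symm.toHomeomorph.image_interior K
      exact ⟨A.symm z, h4 ▸ ⟨z, hz, rfl⟩⟩
    have hKA : K = A '' (A.symm '' K) := by
      rw [Set.image_image]; simp
    have hrel : relBall K = A '' relBall (A.symm '' K) := by
      conv_lhs => rw [hKA]
      exact relBall_image A _
    have he0 : (Pi.single 0 1 : Fin (n + 1) → ℝ) ∈ relBall (A.symm '' K) := by
      rw [hrel] at hm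
      obtain ⟨z, hz, hzm⟩ := hm
      have h5 : z = Pi.single 0 1 := A.injective (hzm.trans hA.symm)
      rwa [← h5]
    have hAt : A (Pi.single 0 t) = t • m := by
      rw [← hA, ← map_smul, ← Pi.single_smul, smul_eq_mul, mul_one]
    refine ⟨A, he0, ⟨relBall_compact h1, relBall_convex h2, ?_⟩, hrel, ?_⟩
    · obtain ⟨r, hr, hb⟩ := relBall_ball hint
      exact ⟨0, mem_interior.2 ⟨_, hb, Metric.isOpen_ball, Metric.mem_ball_self hr⟩⟩
    · calc volume (convexHull ℝ (K ∪ ((t • m) +ᵥ K))) ≤ volume (K + segment ℝ 0 (t • m)) :=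
            measure_mono (hull_sub hK.convex _)
        _ = _ := vol_imageT A K _ ht hAt
        _ = ENNReal.ofReal |LinearMap.det (A : (Fin (n + 1) → ℝ) →ₗ[ℝ] (Fin (n + 1) → ℝ))| *
            (volume (A.symm '' K) + ENNReal.ofReal t * volume (proj (A.symm '' K))) := by
            rw [vol_add_segT h1 h2 ht]
        _ ≤ _ := by
            refine mul_le_mul_right (add_le_add (vol_le_relBall h1)
              (mul_le_mul_right ?_ _)) _
            exact (vol_le_relBall (proj_compact h1)).trans (measure_mono (relBall_proj _))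
  obtain ⟨m, hm, rfl⟩ := hp
  by_cases hm0 : m = 0
  · -- replace the zero vector by any other vector
    obtain ⟨r, hr, hb⟩ := relBall_ball hK.interior_nonempty
    have hqn : ‖(Pi.single 0 (r / 2) : Fin (n + 1) → ℝ)‖ = r / 2 := by
      rw [Pi.norm_single, Real.norm_of_nonneg (by positivity)]
    have hq0 : (Pi.single 0 (r / 2) : Fin (n + 1) → ℝ) ≠ 0 := by
      intro h
      rw [h, norm_zero] at hqn
      linarith
    have hq : (Pi.single 0 (r / 2) : Fin (n + 1) → ℝ) ∈ relBall K := by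
      apply hb
      rw [mem_ball_zero_iff, hqn]
      linarith
    obtain ⟨A, hA1, hA2, hA3, hA4⟩ := main _ hq hq0
    refine ⟨A, hA1, hA2, hA3, le_trans ?_ hA4⟩
    rw [hm0]
    have h1 : K ∪ ((t • (0 : Fin (n + 1) → ℝ)) +ᵥ K) = K := by simp
    show volume (convexHull ℝ (K ∪ ((t • (0 : Fin (n + 1) → ℝ)) +ᵥ K))) ≤ _
    rw [h1, hK.convex.convexHull_eq]
    exact measure_mono (subset_union_left.trans (subset_convexHull ℝ _))
  · exact main m hm hm0

/-- The lower bound for the volume of the convex hull in the first coordinate direction. -/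
theorem hull_geT {n : ℕ} {K : Set (Fin (n + 1) → ℝ)} (hK : IsCompact K) (hc : Convex ℝ K)
    {t : ℝ} (ht : 0 ≤ t) : volume K + ENNReal.ofReal t * volume (proj K) ≤
      volume (convexHull ℝ (K ∪ ((Pi.single 0 t : Fin (n + 1) → ℝ) +ᵥ K))) := by
  rw [← vol_add_segT hK hc ht, segT_eq n ht]
  exact measure_mono (sub_hull _ _)

end Pool.Agent.Y514.TL
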