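import Pool.Agent.H356R3.HT.TRAN
import Pool.Agent.H356R3.HT.VAL
import Pool.Agent.H356R3.HT.DER
import Pool.Agent.H356R3.HT.REGU
import Pool.Agent.Y514.TL.Sign

/-!
# The one-dimensional inequality with a parameter
-/

set_option autoImplicit false
open MeasureTheory Set Pointwise

namespace Pool.Agent.Y514.TL

open Pool.Agent.H356R3.HT

open TRANL in
theorem tran {n : ℕ} {ℓ : ℝ} {f g : ℝ → ℝ} {σ β : ℝ} (hσ : 0 < σ) (hR : Reg n ℓ f g)
    (hβ : ∀ k, 0 < k → BB n k + k * Real.log σ ≤ β) :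
    (∫ s in (0:ℝ)..(1 / ℓ), g s) * (σ + ∫ t in (0:ℝ)..ℓ, f t) ≤ β ^ 2 := by
  have hℓ : 0 < ℓ := lt_of_lt_of_le one_pos hR.hℓ
  have hℓ' : 0 < 1 / ℓ := by positivity
  have hℓ1 : 1 / ℓ ≤ 1 := by
    rw [div_le_one hℓ]; exact hR.hℓ
  obtain ⟨Φ, Φ0, Φℓ, Φc, Φm, Φd, -⟩ := prim ℓ f hℓ.le hR.fc hR.fpos hR.f1
  obtain ⟨G, G0, Gℓ, Gc, Gm, Gd, Gle⟩ := prim (1 / ℓ) g hℓ'.le hR.gc hR.gpos hR.g1
  rw [← Φℓ, ← Gℓ]
  obtain ⟨Q, hQ, hQc⟩ := inv G Gc Gm G0 (1 / ℓ) hℓ'.le
  set B : ℝ := G (1 / ℓ) with hB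
  set A : ℝ := σ + Φ ℓ with hA
  have hBpos : 0 < B := by
    rw [hB, ← G0]; exact Gm hℓ'
  have hΦℓ : 0 < Φ ℓ := by
    rw [← Φ0]; exact Φm hℓ
  have hApos : 0 < A := by linarith
  set lam : ℝ := B / A with hlam
  have hlampos : 0 < lam := by positivity
  have hlamA : lam * A = B := by rw [hlam]; field_simp
  -- the function `h`
  have hh0 : ∀ t, 0 ≤ t → 0 ≤ Φ t := fun t ht => by
    rw [← Φ0]; exact Φm.monotone ht
  have hhI : ∀ t ∈ Icc 0 ℓ, lam * (σ + Φ t) ∈ Icc 0 B := by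
    intro t ht
    have h1 := hh0 t ht.1
    have h2 : Φ t ≤ Φ ℓ := Φm.monotone ht.2
    refine ⟨by positivity, ?_⟩
    rw [← hlamA]
    exact mul_le_mul_of_nonneg_left (by linarith) hlampos.le
  have hhI' : ∀ t ∈ Ioo 0 ℓ, lam * (σ + Φ t) ∈ Ioo 0 B := by
    intro t ht
    have h1 := hh0 t ht.1.le
    have h2 : Φ t < Φ ℓ := Φm ht.2
    refine ⟨by positivity, ?_⟩
    rw [← hlamA]
    exact mul_lt_mul_of_pos_left (by linarith) hlampos
  set T : ℝ → ℝ := fun t => Q (lam * (σ + Φ t)) with hT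
  have hTI : ∀ t ∈ Icc 0 ℓ, T t ∈ Icc 0 (1 / ℓ) := fun t ht => (hQ _ (hhI t ht)).1
  have hTG : ∀ t ∈ Icc 0 ℓ, G (T t) = lam * (σ + Φ t) := fun t ht => (hQ _ (hhI t ht)).2
  have hTpos : ∀ t ∈ Icc 0 ℓ, 0 < T t := by
    intro t ht
    have h1 := hTG t ht
    have h2 := hh0 t ht.1
    refine lt_of_not_ge fun hc => ?_
    have h3 : G (T t) ≤ 0 := by
      rw [← G0]; exact Gm.monotone hc
    have h4 : 0 < lam * (σ + Φ t) := by positivity
    linarith
  have hTlt : ∀ t ∈ Ioo 0 ℓ, T t < 1 / ℓ := by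
    intro t ht
    have h1 := hTG t ⟨ht.1.le, ht.2.le⟩
    have h2 := (hhI' t ht).2
    rw [← h1, hB] at h2
    exact Gm.lt_iff_lt.1 h2
  have hTc : ContinuousOn T (Icc 0 ℓ) :=
    hQc.comp (by fun_prop) hhI
  have hTℓ : T ℓ = 1 / ℓ := by
    have h1 := hTG ℓ ⟨hℓ.le, le_rfl⟩
    rw [← hA, hlamA, hB] at h1
    exact Gm.injective h1
  have hT0 : lam * σ ≤ T 0 := by
    have h1 := hTG 0 ⟨le_rfl, hℓ.le⟩
    rw [Φ0, add_zero] at h1
    rw [← h1]
    exact Gle _ (hTI 0 ⟨le_rfl, hℓ.le⟩).1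
  have hT01 : T 0 ≤ 1 := (hTI 0 ⟨le_rfl, hℓ.le⟩).2.trans hℓ1
  have hT0pos : 0 < T 0 := hTpos 0 ⟨le_rfl, hℓ.le⟩
  -- derivative of `T`
  have hTd : ∀ t ∈ Ioo 0 ℓ, HasDerivAt T (lam * f t / g (T t)) t := by
    intro t ht
    have ht' : t ∈ Icc 0 ℓ := ⟨ht.1.le, ht.2.le⟩
    have hTt : T t ∈ Ioo 0 (1 / ℓ) := ⟨hTpos t ht', hTlt t ht⟩
    have h1 : HasDerivAt Q (g (T t))⁻¹ (lam * (σ + Φ t)) := by
      refine HasDerivAt.of_local_left_inverse
        (hQc.continuousAt (Icc_mem_nhds (hhI' t ht).1 (hhI' t ht).2)) (Gd (T t) hTt)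
        (hR.gpos _ hTt).ne' ?_
      filter_upwards [Icc_mem_nhds (hhI' t ht).1 (hhI' t ht).2] with y hy using (hQ y hy).2
    have h2 : HasDerivAt (fun t => lam * (σ + Φ t)) (lam * f t) t :=
      ((Φd t ht).const_add σ).const_mul lam
    have h3 := h1.comp t h2
    rw [div_eq_inv_mul]
    exact h3
  -- the constant `k`
  set k : ℝ := √(σ * T 0) / 2 with hk
  have hkpos : 0 < k := by
    have := Real.sqrt_pos.2 (mul_pos hσ hT0pos)
    positivity
  have hBB := hβ k hkpos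
  -- monotonicity
  set H : ℝ → ℝ := fun y => ∫ z in (0:ℝ)..y, ph n k z with hH
  have hHd : ∀ y, HasDerivAt H (ph n k y) y := fun y =>
    intervalIntegral.integral_hasDerivAt_right ((ph_cont n hkpos).intervalIntegrable _ _)
      ((ph_cont n hkpos).stronglyMeasurableAtFilter _ _) (ph_cont n hkpos).continuousAt
  have hHc : Continuous H := continuous_iff_continuousAt.2 fun y => (hHd y).continuousAt
  set D : ℝ → ℝ := fun t => k * Real.log (T t) + 1 / 2 * H (t * T t) - √lam * Φ t with hD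
  have hDc : ContinuousOn D (Icc 0 ℓ) := by
    refine ((continuousOn_const.mul (hTc.log fun t ht => (hTpos t ht).ne')).add
      (continuousOn_const.mul (hHc.comp_continuousOn (continuousOn_id.mul hTc)))).sub
      (continuousOn_const.mul Φc.continuousOn)
  have hDd : ∀ t ∈ Ioo 0 ℓ, HasDerivAt D (k * (lam * f t / g (T t) / T t) +
      1 / 2 * (ph n k (t * T t) * (T t + t * (lam * f t / g (T t)))) - √lam * f t) t := by
    intro t ht
    have ht' : t ∈ Icc 0 ℓ := ⟨ht.1.le, ht.2.le⟩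
    have h1 := (hTd t ht).log (hTpos t ht').ne'
    have h2 : HasDerivAt (fun t => t * T t) (T t + t * (lam * f t / g (T t))) t := by
      have := (hasDerivAt_id t).mul (hTd t ht)
      rw [one_mul] at this
      exact this
    have h3 := (hHd (t * T t)).comp t h2
    exact ((h1.const_mul k).add (h3.const_mul (1 / 2))).sub ((Φd t ht).const_mul (√lam))
  have hmono : MonotoneOn D (Icc 0 ℓ) := by
    refine monotoneOn_of_deriv_nonneg (convex_Icc 0 ℓ) hDc ?_ ?_
    · rw [interior_Icc]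
      exact fun t ht => (hDd t ht).differentiableAt.differentiableWithinAt
    · rw [interior_Icc]
      intro t ht
      have ht' : t ∈ Icc 0 ℓ := ⟨ht.1.le, ht.2.le⟩
      have hTt : T t ∈ Ioo 0 (1 / ℓ) := ⟨hTpos t ht', hTlt t ht⟩
      have htT : t * T t < 1 := by
        have : t * T t < ℓ * (1 / ℓ) := mul_lt_mul'' ht.2 hTt.2 ht.1.le hTt.1.le
        rwa [mul_one_div_cancel hℓ.ne'] at this
      rw [(hDd t ht).deriv]
      have := pointwise n hkpos ht.1 hTt.1 htT (hR.fpos t ht) (hR.gpos _ hTt) hlampos rfl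
        (hR.fg t ht _ hTt)
      linarith
  have hfin : D 0 ≤ D ℓ := hmono ⟨le_rfl, hℓ.le⟩ ⟨hℓ.le, le_rfl⟩ hℓ.le
  have hD0 : D 0 = k * Real.log (T 0) := by
    simp only [hD, hH, zero_mul, Φ0, intervalIntegral.integral_same, mul_zero, add_zero, sub_zero]
  have hDℓ : D ℓ ≤ Hk n k 1 - √lam * Φ ℓ := by
    have h1 : Hk n k 1 = 1 / 2 * H 1 := Hk_eq n hkpos zero_le_one le_rfl
    have h2 : ℓ * T ℓ = 1 := by
      rw [hTℓ, mul_one_div_cancel hℓ.ne']
    have h3 : Real.log (T ℓ) ≤ 0 := by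
      rw [hTℓ]
      exact Real.log_nonpos hℓ'.le hℓ1
    have h4 : k * Real.log (T ℓ) ≤ 0 := mul_nonpos_of_nonneg_of_nonpos hkpos.le h3
    simp only [hD]
    rw [h2, h1]
    linarith
  have hmain : √lam * A ≤ β := by
    refine le_trans ?_ hBB
    have h1 : √lam * σ ≤ √(σ * T 0) := by
      rw [← Real.sqrt_sq (by positivity : 0 ≤ √lam * σ), mul_pow, Real.sq_sqrt hlampos.le]
      apply Real.sqrt_le_sqrt
      nlinarith
    have h2 : 2 * k = √(σ * T 0) := by rw [hk]; ring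
    have h3 : Real.log (2 * k) = (Real.log σ + Real.log (T 0)) / 2 := by
      rw [h2, Real.log_sqrt (by positivity), Real.log_mul hσ.ne' hT0pos.ne']
    unfold BB
    rw [h3, hA]
    rw [hD0] at hfin
    have h5 : √lam * (σ + Φ ℓ) = √lam * σ + √lam * Φ ℓ := by ring
    rw [h5]
    have h6 : 2 * k * ((Real.log σ + Real.log (T 0)) / 2) =
        k * Real.log σ + k * Real.log (T 0) := by ring
    rw [h6]
    linarith
  have h0 : 0 ≤ √lam * A := by positivity
  calc B * A = (√lam * A) ^ 2 := by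
        rw [mul_pow, Real.sq_sqrt hlampos.le, ← hlamA]; ring
    _ ≤ β ^ 2 := pow_le_pow_left₀ h0 hmain 2

theorem vI_nonneg {n : ℕ} {a : ℝ} (ha0 : 0 < a) : 0 ≤ vI n a := by
  unfold vI
  apply mul_nonneg (by positivity)
  apply intervalIntegral.integral_nonneg zero_le_one
  intro z hz
  have h1 := VALL.one_le_r (n := n) ha0 hz
  have h2 : 0 ≤ 1 - z := by linarith [hz.2]
  positivity

theorem BB_val {n : ℕ} {a : ℝ} (ha0 : 0 < a) :
    BB n (√a / 2) = √a * (1 + vI n a) + √a / 2 * Qf n a := by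
  have h1 := VALL.int1 (n := n) ha0
  have h2 := VALL.int2 (n := n) ha0
  have h3 := VALL.int3 (n := n) ha0
  unfold Qf
  rw [h1]
  unfold BB Hk
  rw [h2]
  have h4 : 2 * (√a / 2) = √a := by ring
  have h5 : Real.log √a = - (1 / 2) * Real.log (1 / a) := by
    have h6 : Real.log (1 / a) = - Real.log a := by rw [one_div a, Real.log_inv]
    rw [Real.log_sqrt ha0.le, h6]
    ring
  rw [h4, h5]
  set I1 := ∫ z in (0:ℝ)..1, 4 * (1 - z) ^ n / (a * (VALL.r n a z * (VALL.r n a z + 1)))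
  set I2 := ∫ z in (0:ℝ)..1, 4 * (1 - z) ^ n / (a * (VALL.r n a z + 1))
  have h6 : vI n a = (I1 + I2) / 4 := by linarith
  rw [h6]
  ring

theorem BB_maxS {n : ℕ} (hn : 1 ≤ n) {σ a : ℝ} (ha : IsCritS n σ a) :
    ∀ k, 0 < k → BB n k + k * Real.log σ ≤ √a * (1 + vI n a) := by
  obtain ⟨ha0, haq⟩ := ha
  have hval : BB n (√a / 2) + √a / 2 * Real.log σ = √a * (1 + vI n a) := by
    rw [BB_val ha0]
    linear_combination (√a / 2) * haq
  rw [← hval]
  have hsq : 0 < √a := Real.sqrt_pos.2 ha0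
  have hss : √a ^ 2 = a := Real.sq_sqrt ha0.le
  have hder : ∀ x, 0 < x → HasDerivAt (fun k => BB n k + k * Real.log σ)
      (Qf n (4 * x ^ 2) + Real.log σ) x := by
    intro x hx
    have h1 := (DER_proof n hn x hx).add ((hasDerivAt_id x).mul_const (Real.log σ))
    rw [one_mul] at h1
    exact h1
  have h1 : ∀ b, 0 < b → b < a → 0 < Qf n b + Real.log σ := by
    intro b hb hba
    have := Q_anti' hn (a := b) hb (b := a) ha0 hba
    linarith
  have h2 : ∀ b, a < b → Qf n b + Real.log σ < 0 := by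
    intro b hba
    have hb : 0 < b := ha0.trans hba
    have := Q_anti' hn (a := a) ha0 (b := b) hb hba
    linarith
  intro k hk
  rcases le_total k (√a / 2) with h | h
  · have hm : MonotoneOn (fun k => BB n k + k * Real.log σ) (Icc k (√a / 2)) := by
      refine monotoneOn_of_deriv_nonneg (convex_Icc _ _)
        (fun x hx => (hder x (hk.trans_le hx.1)).continuousAt.continuousWithinAt) ?_ ?_
      · intro x hx
        have hx' := interior_subset hx
        exact (hder x (hk.trans_le hx'.1)).differentiableAt.differentiableWithinAt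
      · intro x hx
        rw [interior_Icc] at hx
        have hx0 : 0 < x := hk.trans hx.1
        rw [(hder x hx0).deriv]
        refine (h1 _ (by positivity) ?_).le
        nlinarith [hx.2]
    exact hm (left_mem_Icc.2 h) (right_mem_Icc.2 h) h
  · have hm : AntitoneOn (fun k => BB n k + k * Real.log σ) (Icc (√a / 2) k) := by
      have h0 : ∀ x ∈ Icc (√a / 2) k, 0 < x := fun x hx => by linarith [hx.1]
      refine antitoneOn_of_deriv_nonpos (convex_Icc _ _)
        (fun x hx => (hder x (h0 x hx)).continuousAt.continuousWithinAt) ?_ ?_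
      · intro x hx
        exact (hder x (h0 x (interior_subset hx))).differentiableAt.differentiableWithinAt
      · intro x hx
        have hx0 := h0 x (interior_subset hx)
        rw [interior_Icc] at hx
        rw [(hder x hx0).deriv]
        refine (h2 _ ?_).le
        nlinarith [hx.1]
    exact hm (left_mem_Icc.2 h) (right_mem_Icc.2 h) h

theorem pair_boundS {n : ℕ} (hn : 1 ≤ n) {σ a : ℝ} (hσ : 0 < σ) (ha : IsCritS n σ a)
    {f g : ℝ → ℝ} (hfg : Adm n f g) :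
    (∫⁻ s in Ioi (0:ℝ), ENNReal.ofReal (g s)) *
      (ENNReal.ofReal σ + ∫⁻ t in Ioi (0:ℝ), ENNReal.ofReal (f t)) ≤
      ENNReal.ofReal (a * (1 + vI n a) ^ 2) := by
  rcases REGU_proof n f g hn hfg with h | ⟨ℓ, f', g', hr, hf, hg⟩
  · rw [h, zero_mul]
    exact zero_le
  · have h1 := tran hσ hr (BB_maxS hn ha)
    rw [mul_pow, Real.sq_sqrt ha.1.le] at h1
    have hℓ : (0:ℝ) < ℓ := lt_of_lt_of_le one_pos hr.hℓ
    have hF : 0 ≤ ∫ t in (0:ℝ)..ℓ, f' t := by
      rw [intervalIntegral.integral_of_le hℓ.le, integral_Ioc_eq_integral_Ioo]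
      exact setIntegral_nonneg measurableSet_Ioo fun t ht => (hr.fpos t ht).le
    have hG : 0 ≤ ∫ s in (0:ℝ)..(1 / ℓ), g' s := by
      rw [intervalIntegral.integral_of_le (by positivity), integral_Ioc_eq_integral_Ioo]
      exact setIntegral_nonneg measurableSet_Ioo fun t ht => (hr.gpos t ht).le
    calc (∫⁻ s in Ioi (0:ℝ), ENNReal.ofReal (g s)) *
          (ENNReal.ofReal σ + ∫⁻ t in Ioi (0:ℝ), ENNReal.ofReal (f t))
        ≤ ENNReal.ofReal (∫ s in (0:ℝ)..(1 / ℓ), g' s) *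
          (ENNReal.ofReal σ + ENNReal.ofReal (∫ t in (0:ℝ)..ℓ, f' t)) := by gcongr
      _ = ENNReal.ofReal ((∫ s in (0:ℝ)..(1 / ℓ), g' s) * (σ + ∫ t in (0:ℝ)..ℓ, f' t)) := by
          rw [ENNReal.ofReal_mul hG, ENNReal.ofReal_add hσ.le hF]
      _ ≤ _ := ENNReal.ofReal_le_ofReal h1

end Pool.Agent.Y514.TL
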