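import Pool.Agent.H356R3.HT.BODY
import Pool.Agent.Y514.TL.Seg
import Pool.Agent.Y514.TL.Low
import Pool.Agent.Y514.TL.Tran

/-!
# The extremal body, for every length of the translation
-/

set_option autoImplicit false
open MeasureTheory Set Pointwise

namespace Pool.Agent.Y514.TL

open Pool.Agent.H356R3.HT

open BODYL in
theorem bodyT {n : ℕ} {a t : ℝ} {f g : ℝ → ℝ} (hn : 1 ≤ n) (ht : 0 ≤ t) (ha : 0 < a) (ha1 : a < 1)
    (hf : Measurable f) (hg : Measurable g) (hf0 : f 0 = 1) (hfnn : ∀ t ∈ Icc (0:ℝ) 1, 0 ≤ f t)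
    (hgnn : ∀ s ∈ Icc (0:ℝ) 1, 0 ≤ g s) (hg1 : ∀ s ∈ Icc (0:ℝ) a, g s = 1)
    (hfg : ∀ t ∈ Icc (0:ℝ) 1, ∀ s ∈ Icc (0:ℝ) 1, f t * g s ≤ (1 - t * s) ^ n) :
    ∃ K : Set (Fin (n + 1) → ℝ), Pool.Agent.Helper481.MS.IsConvexBody K ∧
      ∃ p ∈ t • Pool.Agent.Helper481.MS.relBall K,
      4 * Pool.Agent.Helper481.MB.kappa n ^ 2 / Pool.Agent.Helper481.MB.kappa (n + 1) *
        ((∫⁻ s in Icc (0:ℝ) 1, ENNReal.ofReal (g s)) *
        (ENNReal.ofReal (t / 2) + ∫⁻ u in Icc (0:ℝ) 1, ENNReal.ofReal (f u))) ≤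
      htVol (Pool.Agent.Helper481.MS.relBall K) (convexHull ℝ (K ∪ (p +ᵥ K))) := by
  have hn0 : n ≠ 0 := by omega
  obtain ⟨L, hL⟩ : ∃ L, L = Rev n g := ⟨_, rfl⟩
  obtain ⟨K, hK⟩ : ∃ K, K = polar L := ⟨_, rfl⟩
  have hLneg : ∀ x ∈ L, -x ∈ L := by
    rw [hL]; exact fun x hx => Rev_neg g x hx
  have hKneg : ∀ y ∈ K, -y ∈ K := by
    rw [hK]; exact fun y hy => polar_neg L hLneg y hy
  have hKclosed : IsClosed K := by rw [hK]; exact polar_closed L
  have hKconv : Convex ℝ K := by rw [hK]; exact polar_convex L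
  -- `g ≤ 1`
  have hgle : ∀ s ∈ Icc (0:ℝ) 1, g s ≤ 1 := by
    intro s hs
    have h1 := hfg 0 ⟨le_refl _, zero_le_one⟩ s hs
    rw [hf0, one_mul, zero_mul, sub_zero, one_pow] at h1
    exact h1
  -- bounds for the elements of `L`
  have hLb : ∀ x ∈ L, ∀ i, |x i| ≤ 1 := by
    intro x hx i
    rw [hL] at hx
    refine Fin.cases ?_ (fun j => ?_) i
    · exact hx.1
    · have h1 := hx.2.trans (hgle _ ⟨abs_nonneg _, hx.1⟩)
      have h2 : en (Pool.Agent.H356R3.HT.BODYL.tl x) ≤ 1 := by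
        rwa [pow_le_one_iff_of_nonneg (en_nonneg _) hn0] at h1
      exact (abs_le_en (Pool.Agent.H356R3.HT.BODYL.tl x) j).trans h2
  -- unit vectors in `L`
  have hsingle0 : ∀ t : ℝ, |t| ≤ a → (Pi.single 0 t : Fin (n + 1) → ℝ) ∈ L := by
    intro t ht
    rw [hL]
    refine ⟨?_, ?_⟩
    · rw [Pi.single_eq_same]
      exact ht.trans ha1.le
    · have h1 : en (Pool.Agent.H356R3.HT.BODYL.tl (Pi.single 0 t : Fin (n + 1) → ℝ)) = 0 := by
        unfold en Pool.Agent.H356R3.HT.BODYL.tl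
        simp
      rw [h1, zero_pow hn0, Pi.single_eq_same, hg1 _ ⟨abs_nonneg _, ht⟩]
      exact zero_le_one
  have hsingle1 : ∀ (j : Fin n) (t : ℝ), |t| ≤ 1 →
      (Pi.single j.succ t : Fin (n + 1) → ℝ) ∈ L := by
    intro j t ht
    rw [hL]
    have h0 : (Pi.single j.succ t : Fin (n + 1) → ℝ) 0 = 0 :=
      Pi.single_eq_of_ne (Fin.succ_ne_zero j).symm t
    refine ⟨?_, ?_⟩
    · rw [h0, abs_zero]; exact zero_le_one
    · have h1 : en (Pool.Agent.H356R3.HT.BODYL.tl (Pi.single j.succ t : Fin (n + 1) → ℝ)) = |t| := by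
        unfold en Pool.Agent.H356R3.HT.BODYL.tl
        rw [Finset.sum_eq_single j]
        · rw [Pi.single_eq_same, Real.sqrt_sq_eq_abs]
        · intro i _ hij
          rw [Pi.single_eq_of_ne (fun h => hij (Fin.succ_injective _ h))]
          ring
        · intro h; exact absurd (Finset.mem_univ j) h
      rw [h1, h0, abs_zero, hg1 0 ⟨le_refl _, ha.le⟩]
      exact pow_le_one₀ (abs_nonneg _) ht
  -- `K` is bounded
  have hKb : ∀ y ∈ K, ∀ i, |y i| ≤ 1 / a := by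
    intro y hy i
    rw [hK] at hy
    have hs : ∀ (j : Fin (n + 1)) (t : ℝ), ∑ i, (Pi.single j t : Fin (n + 1) → ℝ) i * y i =
        t * y j := by
      intro j t
      rw [Finset.sum_eq_single j]
      · rw [Pi.single_eq_same]
      · intro i _ hij
        rw [Pi.single_eq_of_ne hij, zero_mul]
      · intro h; exact absurd (Finset.mem_univ j) h
    refine Fin.cases ?_ (fun j => ?_) i
    · have h1 := hy _ (hsingle0 a (by rw [abs_of_pos ha]))
      have h2 := hy _ (hsingle0 (-a) (by rw [abs_neg, abs_of_pos ha]))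
      rw [hs] at h1 h2
      rw [abs_le, le_div_iff₀ ha, neg_le, ← sub_nonneg]
      constructor
      · rw [sub_nonneg, le_div_iff₀ ha]; nlinarith
      · nlinarith
    · have h1 := hy _ (hsingle1 j 1 (by rw [abs_one]))
      have h2 := hy _ (hsingle1 j (-1) (by rw [abs_neg, abs_one]))
      rw [hs] at h1 h2
      have h3 : |y j.succ| ≤ 1 := abs_le.2 ⟨by linarith, by linarith⟩
      exact h3.trans ((one_le_div ha).2 ha1.le)
  have hKcomp : IsCompact K := by
    apply IsCompact.of_isClosed_subset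
      (isCompact_closedBall (0 : Fin (n + 1) → ℝ) (1 / a)) hKclosed
    intro y hy
    rw [mem_closedBall_zero_iff, pi_norm_le_iff_of_nonneg (by positivity)]
    intro i
    rw [Real.norm_eq_abs]
    exact hKb y hy i
  -- `K` is a neighbourhood of `0`
  have hKint : (interior K).Nonempty := by
    refine ⟨0, mem_interior.2 ⟨Metric.ball 0 (1 / (n + 1)), ?_, Metric.isOpen_ball,
      Metric.mem_ball_self (by positivity)⟩⟩
    intro y hy
    rw [mem_ball_zero_iff] at hy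
    rw [hK]
    intro x hx
    have h1 : ∀ i ∈ (Finset.univ : Finset (Fin (n + 1))), x i * y i ≤ 1 / ((n : ℝ) + 1) := by
      intro i _
      have h2 := hLb x hx i
      have h3 : |y i| ≤ 1 / ((n : ℝ) + 1) := by
        rw [← Real.norm_eq_abs]
        exact (norm_le_pi_norm y i).trans hy.le
      calc x i * y i ≤ |x i * y i| := le_abs_self _
        _ = |x i| * |y i| := abs_mul _ _
        _ ≤ 1 * (1 / ((n : ℝ) + 1)) := mul_le_mul h2 h3 (abs_nonneg _) zero_le_one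
        _ = 1 / ((n : ℝ) + 1) := one_mul _
    have h4 := Finset.sum_le_sum h1
    rw [Finset.sum_const, Finset.card_univ, Fintype.card_fin, nsmul_eq_mul] at h4
    have h5 : ((n + 1 : ℕ) : ℝ) * (1 / ((n : ℝ) + 1)) = 1 := by
      push_cast
      field_simp
    rw [h5] at h4
    exact h4
  have hbody : Pool.Agent.Helper481.MS.IsConvexBody K := ⟨hKcomp, hKconv, hKint⟩
  -- `L` is in the polar body
  have hrel := relBall_sub hKconv hKneg
  have hLpol : L ⊆ polar (Pool.Agent.Helper481.MS.relBall K) := by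
    intro x hx z hz
    have h1 := hrel hz
    rw [hK] at h1
    have h2 := h1 x hx
    have h3 : ∑ i, z i * x i = ∑ i, x i * z i := Finset.sum_congr rfl fun i _ => mul_comm _ _
    rw [h3]
    exact h2
  -- the body of `f` is in `K`
  have hRK : Rev n f ⊆ K := by
    intro y hy
    rw [hK]
    intro x hx
    rw [hL] at hx
    rw [Fin.sum_univ_succ]
    have h1 : ∑ i : Fin n, x i.succ * y i.succ ≤
        en (Pool.Agent.H356R3.HT.BODYL.tl x) * en (Pool.Agent.H356R3.HT.BODYL.tl y) :=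
      cs (Pool.Agent.H356R3.HT.BODYL.tl x) (Pool.Agent.H356R3.HT.BODYL.tl y)
    have h2 : x 0 * y 0 ≤ |y 0| * |x 0| := by
      rw [← abs_mul, mul_comm]
      exact le_abs_self _
    have h3 : (en (Pool.Agent.H356R3.HT.BODYL.tl x) * en (Pool.Agent.H356R3.HT.BODYL.tl y)) ^ n ≤
        (1 - |y 0| * |x 0|) ^ n := by
      rw [mul_pow]
      calc en (Pool.Agent.H356R3.HT.BODYL.tl x) ^ n * en (Pool.Agent.H356R3.HT.BODYL.tl y) ^ n
          ≤ g |x 0| * f |y 0| := mul_le_mul hx.2 hy.2 (pow_nonneg (en_nonneg _) n)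
            (hgnn _ ⟨abs_nonneg _, hx.1⟩)
        _ = f |y 0| * g |x 0| := mul_comm _ _
        _ ≤ _ := hfg _ ⟨abs_nonneg _, hy.1⟩ _ ⟨abs_nonneg _, hx.1⟩
    have h4 : 0 ≤ 1 - |y 0| * |x 0| := by
      have h5 : |y 0| * |x 0| ≤ 1 * 1 :=
        mul_le_mul hy.1 hx.1 (abs_nonneg _) zero_le_one
      linarith
    have h5 := (pow_le_pow_iff_left₀ (mul_nonneg (en_nonneg _) (en_nonneg _)) h4 hn0).1 h3
    linarith
  -- the projection
  have hproj : Pool.Agent.Helper481.MB.eball n ⊆ Pool.Agent.Helper481.MS.proj K := by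
    intro y hy
    have h1 : ∑ i, y i ^ 2 ≤ 1 := hy
    have h6 : Pool.Agent.H356R3.HT.BODYL.tl (Fin.cons 0 y : Fin (n + 1) → ℝ) = y := by
      ext i
      simp [Pool.Agent.H356R3.HT.BODYL.tl]
    refine ⟨Fin.cons 0 y, hRK ⟨?_, ?_⟩, by ext i; simp⟩
    · rw [Fin.cons_zero, abs_zero]; exact zero_le_one
    · rw [h6, Fin.cons_zero, abs_zero, hf0]
      apply pow_le_one₀ (en_nonneg y)
      unfold en
      rw [← Real.sqrt_one]
      exact Real.sqrt_le_sqrt h1
  -- unit vectors in `K`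
  have he : ∀ t : ℝ, |t| = 1 → (Pi.single 0 t : Fin (n + 1) → ℝ) ∈ K := by
    intro t ht
    rw [hK]
    intro x hx
    rw [Finset.sum_eq_single 0]
    · rw [Pi.single_eq_same]
      calc x 0 * t ≤ |x 0 * t| := le_abs_self _
        _ = |x 0| := by rw [abs_mul, ht, mul_one]
        _ ≤ 1 := hLb x hx 0
    · intro i _ hi
      rw [Pi.single_eq_of_ne hi, mul_zero]
    · intro h; exact absurd (Finset.mem_univ _) h
  have hmem : (Pi.single 0 t : Fin (n + 1) → ℝ) ∈ t • Pool.Agent.Helper481.MS.relBall K := by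
    refine ⟨Pi.single 0 1, ⟨Pi.single 0 1 - Pi.single 0 (-1), ⟨_, he 1 (by norm_num), _,
      he (-1) (by norm_num), rfl⟩, ?_⟩, ?_⟩
    · show (1 / 2 : ℝ) • ((Pi.single 0 1 : Fin (n + 1) → ℝ) - Pi.single 0 (-1)) = Pi.single 0 1
      rw [← Pi.single_sub, ← Pi.single_smul]
      norm_num
    · show t • (Pi.single 0 1 : Fin (n + 1) → ℝ) = Pi.single 0 t
      rw [← Pi.single_smul, smul_eq_mul, mul_one]
  refine ⟨K, hbody, Pi.single 0 t, hmem, ?_⟩
  unfold htVol
  have hv1 : 2 * Pool.Agent.Helper481.MB.kappa n * ∫⁻ t in Icc (0:ℝ) 1, ENNReal.ofReal (g t) ≤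
      volume (polar (Pool.Agent.Helper481.MS.relBall K)) := by
    rw [← vol_rev hn g hg hgnn, ← hL]
    exact measure_mono hLpol
  have hv2 : 2 * Pool.Agent.Helper481.MB.kappa n *
      (ENNReal.ofReal (t / 2) + ∫⁻ t in Icc (0:ℝ) 1, ENNReal.ofReal (f t)) ≤
      volume (convexHull ℝ (K ∪ ((Pi.single 0 t : Fin (n + 1) → ℝ) +ᵥ K))) := by
    refine le_trans ?_ (hull_geT hKcomp hKconv ht)
    have h1 := vol_rev hn f hf hfnn
    have h2 : volume (Rev n f) ≤ volume K := measure_mono hRK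
    rw [h1] at h2
    have h3 : Pool.Agent.Helper481.MB.kappa n ≤ volume (Pool.Agent.Helper481.MS.proj K) :=
      measure_mono hproj
    have e2 : 2 * ENNReal.ofReal (t / 2) = ENNReal.ofReal t := by
      have h2' : (2 : ENNReal) = ENNReal.ofReal 2 := by simp
      rw [h2', ← ENNReal.ofReal_mul (by norm_num)]
      congr 1
      ring
    calc 2 * Pool.Agent.Helper481.MB.kappa n *
        (ENNReal.ofReal (t / 2) + ∫⁻ t in Icc (0:ℝ) 1, ENNReal.ofReal (f t))
        = 2 * Pool.Agent.Helper481.MB.kappa n * (∫⁻ t in Icc (0:ℝ) 1, ENNReal.ofReal (f t)) +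
          2 * ENNReal.ofReal (t / 2) * Pool.Agent.Helper481.MB.kappa n := by ring
      _ ≤ _ := by rw [e2]; gcongr
  calc 4 * Pool.Agent.Helper481.MB.kappa n ^ 2 / Pool.Agent.Helper481.MB.kappa (n + 1) *
      ((∫⁻ s in Icc (0:ℝ) 1, ENNReal.ofReal (g s)) *
      (ENNReal.ofReal (t / 2) + ∫⁻ t in Icc (0:ℝ) 1, ENNReal.ofReal (f t)))
      = (2 * Pool.Agent.Helper481.MB.kappa n * ∫⁻ t in Icc (0:ℝ) 1, ENNReal.ofReal (g t)) /
        Pool.Agent.Helper481.MB.kappa (n + 1) * (2 * Pool.Agent.Helper481.MB.kappa n *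
      (ENNReal.ofReal (t / 2) + ∫⁻ t in Icc (0:ℝ) 1, ENNReal.ofReal (f t))) := by
        generalize ENNReal.ofReal (t / 2) = T
        rw [div_eq_mul_inv, div_eq_mul_inv]; ring
    _ ≤ _ := by gcongr

open Pool.Agent.Helper481.MS (IsConvexBody relBall) in
open Pool.Agent.Helper481.MB (kappa) in
/-- The lower bound for the Holmes-Thompson volume. -/
theorem ht_lower {n : ℕ} (hn : 1 ≤ n) {t a : ℝ} (ht : 0 < t) (ha : IsCritS n (t / 2) a) :
    ∃ K : Set (Fin (n + 1) → ℝ), IsConvexBody K ∧ ∃ p ∈ t • relBall K,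
      4 * kappa n ^ 2 / kappa (n + 1) * ENNReal.ofReal (a * (1 + vI n a) ^ 2) ≤
        htVol (relBall K) (convexHull ℝ (K ∪ (p +ᵥ K))) := by
  have hσ : 0 < t / 2 := by positivity
  have haσ := crit_lt hn hσ ha
  have ha0 := ha.1
  have hv0 := vI_nonneg (n := n) ha0
  obtain ⟨f, g, hf, hg, hf0, hfn, hgn, hg1, hfg, hF, hG⟩ := lowT hn hσ ha
  obtain ⟨K, hK, p, hp, hle⟩ := bodyT hn ht.le (a := a / (t / 2)) (by positivity)
    ((div_lt_one hσ).2 haσ) hf hg hf0 hfn hgn hg1 hfg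
  refine ⟨K, hK, p, hp, le_trans ?_ hle⟩
  have h1 : ENNReal.ofReal (a * (1 + vI n a) ^ 2) =
      ENNReal.ofReal (a / (t / 2) * (1 + vI n a)) *
        (ENNReal.ofReal (t / 2) + ENNReal.ofReal (t / 2 * vI n a)) := by
    rw [← ENNReal.ofReal_add hσ.le (by positivity), ← ENNReal.ofReal_mul (by positivity)]
    congr 1
    field_simp
  rw [h1]
  gcongr

end Pool.Agent.Y514.TL
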