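import Pool.Agent.H356R3.HT.GEO
import Pool.Agent.H356R3.HT.SAN
import Pool.Agent.H356R3.HT.LIN
import Pool.Agent.Y514.TL.Seg
import Pool.Agent.Y514.TL.Tran

/-!
# From a symmetric body to a pair of functions
-/

set_option autoImplicit false
open MeasureTheory Set Pointwise

namespace Pool.Agent.Y514.TL

open Pool.Agent.H356R3.HT
open Pool.Agent.H356R3.HT.GEOL
open Pool.Agent.Helper481.MS hiding cTr
open Pool.Agent.Helper481.MB (kappa eball vol_le_relBall eball_compact)

theorem geoT {n : ℕ} {M : Set (Fin (n + 1) → ℝ)} (hn : 1 ≤ n) (hM : IsCompact M)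
    (hc : Convex ℝ M) (hi : (interior M).Nonempty) (hs : ∀ x ∈ M, -x ∈ M)
    (he : (Pi.single 0 1 : Fin (n + 1) → ℝ) ∈ M) {t : ℝ} (ht : 0 ≤ t) :
    ∃ f g : ℝ → ℝ, Adm n f g ∧
      volume (polar M) * (volume M + ENNReal.ofReal t * volume (proj M)) ≤
        4 * kappa n ^ 2 * ((∫⁻ s in Ioi (0:ℝ), ENNReal.ofReal (g s)) *
          (ENNReal.ofReal (t / 2) + ∫⁻ u in Ioi (0:ℝ), ENNReal.ofReal (f u))) := by
  have h : S_SAN := SAN_proof
  obtain ⟨r, hr, hball⟩ := ball_sub hc hi hs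
  have hP : IsCompact (polar M) := polar_compact hr hball
  set V0 : ENNReal := volume (SS M 0) with hV0
  have hV0pos : V0 ≠ 0 := (SS_pos hc hs he hr hball le_rfl one_pos).ne'
  have hV0top : V0 ≠ ⊤ := (SS_compact hM 0).measure_lt_top.ne
  have hk0 : kappa n ^ 2 ≠ 0 := pow_ne_zero _ (kappa_ne_zero n)
  have hkt : kappa n ^ 2 ≠ ⊤ := ENNReal.pow_ne_top (kappa_ne_top n)
  have hSt : ∀ t, volume (SS M t) ≠ ⊤ := fun t => (SS_compact hM t).measure_lt_top.ne
  have hNc : ∀ s, IsCompact (NN M s) := fun s => relBall_compact (AA_compact hP s)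
  have hNt : ∀ s, volume (NN M s) ≠ ⊤ := fun s => (hNc s).measure_lt_top.ne
  set f : ℝ → ℝ := fun t => (volume (SS M t) / V0).toReal with hf
  set g : ℝ → ℝ := fun s => (volume (NN M s) * V0 / kappa n ^ 2).toReal with hg
  have hft : ∀ t, volume (SS M t) / V0 ≠ ⊤ := fun t => ENNReal.div_ne_top (hSt t) hV0pos
  have hgt : ∀ s, volume (NN M s) * V0 / kappa n ^ 2 ≠ ⊤ := fun s =>
    ENNReal.div_ne_top (ENNReal.mul_ne_top (hNt s) hV0top) hk0
  refine ⟨f, g, ⟨?_, ?_, ?_, ?_, ?_, ?_⟩, ?_⟩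
  · show (V0 / V0).toReal = 1
    rw [ENNReal.div_self hV0pos hV0top]
    simp
  · intro t ht
    show (volume (SS M t) / V0).toReal ≤ 1
    apply ENNReal.toReal_le_of_le_ofReal zero_le_one
    rw [ENNReal.ofReal_one]
    exact ENNReal.div_le_of_le_mul (by rw [one_mul]; exact measure_mono (SS_anti M ht))
  · intro t ht0 ht1
    exact ENNReal.toReal_pos (ENNReal.div_ne_zero.2 ⟨(SS_pos hc hs he hr hball ht0 ht1).ne', hV0top⟩)
      (hft t)
  · intro t _; exact ENNReal.toReal_nonneg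
  · intro t _; exact ENNReal.toReal_nonneg
  · intro t s ht0 hs0
    show (volume (SS M t) / V0).toReal * (volume (NN M s) * V0 / kappa n ^ 2).toReal ≤ _
    rw [← ENNReal.toReal_mul]
    apply ENNReal.toReal_le_of_le_ofReal (by positivity)
    have h1 := san_max h hn (SS_compact hM t) (hNc s) (fun x hx => SS_neg hs hx)
      (fun x hx => relBall_neg hx) (c := 1 - t * s) (fun x hx y hy => pairing hs hs0 hx hy)
    calc volume (SS M t) / V0 * (volume (NN M s) * V0 / kappa n ^ 2)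
        = (volume (SS M t) * volume (NN M s)) * (V0 * V0⁻¹) / kappa n ^ 2 := by
          simp only [div_eq_mul_inv]; ring
      _ = (volume (SS M t) * volume (NN M s)) / kappa n ^ 2 := by
          rw [ENNReal.mul_inv_cancel hV0pos hV0top, mul_one]
      _ ≤ ENNReal.ofReal ((max 0 (1 - t * s)) ^ n) := by
          apply ENNReal.div_le_of_le_mul
          rw [mul_comm (ENNReal.ofReal _)]
          exact h1
  · have h1 := vol_polar_le hs hP
    have h2 := vol_body_le hM hc
    have h3 : ∫⁻ t in Ioi (0:ℝ), volume (SS M t) = V0 * ∫⁻ t in Ioi (0:ℝ), ENNReal.ofReal (f t) := by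
      rw [← lintegral_const_mul' _ _ hV0top]
      apply lintegral_congr
      intro t
      rw [hf]
      simp only
      rw [ENNReal.ofReal_toReal (hft t), ENNReal.mul_div_cancel hV0pos hV0top]
    have h4 : (∫⁻ s in Ioi (0:ℝ), volume (NN M s)) * V0 =
        kappa n ^ 2 * ∫⁻ s in Ioi (0:ℝ), ENNReal.ofReal (g s) := by
      rw [← lintegral_const_mul' _ _ hkt, ← lintegral_mul_const' _ _ hV0top]
      apply lintegral_congr
      intro s
      rw [hg]
      simp only
      rw [ENNReal.ofReal_toReal (hgt s), ENNReal.mul_div_cancel hk0 hkt]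
    rw [← SS_zero M, ← hV0]
    have e2 : ENNReal.ofReal t = 2 * ENNReal.ofReal (t / 2) := by
      have h2' : (2 : ENNReal) = ENNReal.ofReal 2 := by simp
      rw [h2', ← ENNReal.ofReal_mul (by norm_num)]
      congr 1
      ring
    rw [e2]
    calc volume (polar M) * (volume M + 2 * ENNReal.ofReal (t / 2) * V0)
        ≤ (2 * ∫⁻ s in Ioi (0:ℝ), volume (NN M s)) *
          (2 * (V0 * ∫⁻ t in Ioi (0:ℝ), ENNReal.ofReal (f t)) +
            2 * ENNReal.ofReal (t / 2) * V0) := by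
          rw [← h3]; gcongr
      _ = 4 * ((∫⁻ s in Ioi (0:ℝ), volume (NN M s)) * V0) *
          (ENNReal.ofReal (t / 2) + ∫⁻ t in Ioi (0:ℝ), ENNReal.ofReal (f t)) := by ring
      _ = _ := by rw [h4]; ring

/-- The upper bound for the Holmes-Thompson volume. -/
theorem ht_upper {n : ℕ} (hn : 1 ≤ n) {t a : ℝ} (ht : 0 < t) (ha : IsCritS n (t / 2) a)
    {K : Set (Fin (n + 1) → ℝ)} (hK : IsConvexBody K) {p : Fin (n + 1) → ℝ}
    (hp : p ∈ t • relBall K) :
    htVol (relBall K) (convexHull ℝ (K ∪ (p +ᵥ K))) ≤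
      4 * kappa n ^ 2 / kappa (n + 1) * ENNReal.ofReal (a * (1 + vI n a) ^ 2) := by
  obtain ⟨A, he0, hb, hrel, hle⟩ := lin hK ht.le hp
  obtain ⟨f, g, hfg, hle2⟩ := geoT hn hb.isCompact hb.convex hb.interior_nonempty
    (fun x hx => relBall_neg hx) he0 ht.le
  have h3 := pair_boundS hn (by positivity) ha hfg
  have hdet : LinearMap.det (A : (Fin (n + 1) → ℝ) →ₗ[ℝ] (Fin (n + 1) → ℝ)) ≠ 0 :=
    (LinearEquiv.isUnit_det' A.toLinearEquiv).ne_zero
  have h5 : volume (polar (relBall K)) * volume (convexHull ℝ (K ∪ (p +ᵥ K))) ≤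
      volume (polar (relBall (A.symm '' K))) * (volume (relBall (A.symm '' K)) +
        ENNReal.ofReal t * volume (proj (relBall (A.symm '' K)))) := by
    calc volume (polar (relBall K)) * volume (convexHull ℝ (K ∪ (p +ᵥ K)))
        ≤ volume (polar (relBall K)) *
          (ENNReal.ofReal |LinearMap.det (A : (Fin (n + 1) → ℝ) →ₗ[ℝ] (Fin (n + 1) → ℝ))| *
          (volume (relBall (A.symm '' K)) +
            ENNReal.ofReal t * volume (proj (relBall (A.symm '' K))))) := by
          gcongr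
      _ = (ENNReal.ofReal |LinearMap.det (A : (Fin (n + 1) → ℝ) →ₗ[ℝ] (Fin (n + 1) → ℝ))| *
          volume (polar ((A : (Fin (n + 1) → ℝ) →ₗ[ℝ] (Fin (n + 1) → ℝ)) ''
            relBall (A.symm '' K)))) *
          (volume (relBall (A.symm '' K)) +
            ENNReal.ofReal t * volume (proj (relBall (A.symm '' K)))) := by
          have e : ((A : (Fin (n + 1) → ℝ) →ₗ[ℝ] (Fin (n + 1) → ℝ)) '' relBall (A.symm '' K)) =
              relBall K := hrel.symm
          rw [e]; ring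
      _ = _ := by rw [LINL.vol_polar _ hdet]
  unfold htVol
  have h4 : volume (polar (relBall K)) * volume (convexHull ℝ (K ∪ (p +ᵥ K))) ≤
      4 * kappa n ^ 2 * ENNReal.ofReal (a * (1 + vI n a) ^ 2) :=
    (h5.trans hle2).trans (by gcongr)
  calc volume (polar (relBall K)) / kappa (n + 1) * volume (convexHull ℝ (K ∪ (p +ᵥ K)))
      = volume (polar (relBall K)) * volume (convexHull ℝ (K ∪ (p +ᵥ K))) / kappa (n + 1) := by
        rw [div_eq_mul_inv, div_eq_mul_inv]; ring
    _ ≤ 4 * kappa n ^ 2 * ENNReal.ofReal (a * (1 + vI n a) ^ 2) / kappa (n + 1) := by gcongr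
    _ = _ := by rw [div_eq_mul_inv, div_eq_mul_inv]; ring

end Pool.Agent.Y514.TL
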