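import Pool.Agent.Y514.TL.Seg
import Pool.Agent.Results.MP_ccd96b_co.MassMax

/-!
# Translations of any length: Gromov's mass and mass*
-/

set_option autoImplicit false
open MeasureTheory Set Pointwise

namespace Pool.Agent.Y514.TL

open Pool.Agent.Helper481.MS
open Pool.Agent.Helper481.MB
open Pool.Agent.Results.MP_ccd96b_co.MassMax (parallelotope minBox massStarVol sub_relBall
  eball_neg eball_body cube_neg cube_body minBox_pos_finite cube_parallelotope)

/-- the bound for convex hulls of two translates -/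
theorem hull_boundT {n : ℕ} {K : Set (Fin (n + 1) → ℝ)} (hK : IsConvexBody K)
    {D : ℝ} (hD : ∀ v : Fin (n + 1) → Fin (n + 1) → ℝ, (∀ i, v i ∈ relBall K) →
      |(Matrix.of v).det| ≤ D) {t : ℝ} (ht : 0 ≤ t) {p : Fin (n + 1) → ℝ}
    (hp : p ∈ t • relBall K) :
    volume (convexHull ℝ (K ∪ (p +ᵥ K))) ≤
      (kappa (n + 1) + ENNReal.ofReal t * kappa n) * ENNReal.ofReal D := by
  obtain ⟨A, he0, hb, hrel, hle⟩ := lin hK ht hp
  set δ : ℝ := |LinearMap.det (A : (Fin (n + 1) → ℝ) →ₗ[ℝ] (Fin (n + 1) → ℝ))| with hδ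
  have hδ0 : 0 < δ := abs_pos.2 (LinearEquiv.isUnit_det' A.toLinearEquiv).ne_zero
  have hD' : ∀ v : Fin (n + 1) → Fin (n + 1) → ℝ, (∀ i, v i ∈ relBall (A.symm '' K)) →
      |(Matrix.of v).det| ≤ D / δ := by
    intro v hv
    have h4 := hD (fun i => A (v i)) (by
      intro i
      rw [hrel]
      exact ⟨_, hv i, rfl⟩)
    rw [det_map, abs_mul] at h4
    rwa [le_div_iff₀ hδ0]
  have hv1 : volume (relBall (A.symm '' K)) ≤ kappa (n + 1) * ENNReal.ofReal (D / δ) :=
    macbeath_pi _ hb.isCompact hb.convex hD'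
  have hv2 : volume (proj (relBall (A.symm '' K))) ≤ kappa n * ENNReal.ofReal (D / δ) := by
    refine macbeath_pi _ (proj_compact hb.isCompact) (proj_convex hb.convex) ?_
    intro w hw
    have hw' : ∀ i, ∃ z ∈ relBall (A.symm '' K), (fun j => z (Fin.succ j)) = w i := fun i => hw i
    choose z hz hzw using hw'
    rw [← det_first w (Fin.cons (Pi.single 0 1) z) (by simp)
      (by intro i j; rw [Fin.cons_succ]; exact congrFun (hzw i) j)]
    apply hD'
    intro i
    refine Fin.cases ?_ (fun k => ?_) i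
    · rw [Fin.cons_zero]; exact he0
    · rw [Fin.cons_succ]; exact hz k
  calc volume (convexHull ℝ (K ∪ (p +ᵥ K)))
      ≤ ENNReal.ofReal δ * (volume (relBall (A.symm '' K)) +
          ENNReal.ofReal t * volume (proj (relBall (A.symm '' K)))) := hle
    _ ≤ ENNReal.ofReal δ * (kappa (n + 1) * ENNReal.ofReal (D / δ) +
          ENNReal.ofReal t * (kappa n * ENNReal.ofReal (D / δ))) := by gcongr
    _ = (kappa (n + 1) + ENNReal.ofReal t * kappa n) *
          (ENNReal.ofReal δ * ENNReal.ofReal (D / δ)) := by ring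
    _ = (kappa (n + 1) + ENNReal.ofReal t * kappa n) * ENNReal.ofReal D := by
        rw [← ENNReal.ofReal_mul hδ0.le, mul_div_cancel₀ _ hδ0.ne']

theorem mass_upperT {n : ℕ} {K : Set (Fin (n + 1) → ℝ)} (hK : IsConvexBody K) {t : ℝ}
    (ht : 0 ≤ t) {p : Fin (n + 1) → ℝ} (hp : p ∈ t • relBall K) :
    massVol (relBall K) (convexHull ℝ (K ∪ (p +ᵥ K))) ≤
      kappa (n + 1) + ENNReal.ofReal t * kappa n := by
  obtain ⟨v, hv, hpos, hmax⟩ := exists_max hK
  have hs0 : volume (std (n + 1)) ≠ 0 :=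
    (Measure.measure_pos_of_nonempty_interior volume
      (std_body (Nat.succ_pos n)).interior_nonempty).ne'
  have hst : volume (std (n + 1)) ≠ ⊤ := (std_body (Nat.succ_pos n)).isCompact.measure_lt_top.ne
  have hD : ∀ w : Fin (n + 1) → Fin (n + 1) → ℝ, (∀ i, w i ∈ relBall K) →
      |(Matrix.of w).det| ≤ |(Matrix.of v).det| := by
    intro w hw
    have h1 : volume (crossPolytope 0 w) ≤ maxCross (relBall K) :=
      le_iSup_of_le 0 (le_iSup_of_le w (le_iSup_of_le (cross_sub hK.convex hw) le_rfl))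
    rw [vol_cross, hmax, ENNReal.mul_le_mul_iff_left hs0 hst] at h1
    exact (ENNReal.ofReal_le_ofReal_iff (abs_nonneg _)).1 h1
  have h2 := hull_boundT hK hD ht hp
  have hD0 : ENNReal.ofReal |(Matrix.of v).det| ≠ 0 := by
    rw [Ne, ENNReal.ofReal_eq_zero, not_le]
    exact hpos
  unfold massVol
  rw [hmax, ← vol_std (Nat.succ_pos n)]
  calc volume (std (n + 1)) / (ENNReal.ofReal |(Matrix.of v).det| * volume (std (n + 1))) *
        volume (convexHull ℝ (K ∪ (p +ᵥ K)))
      ≤ volume (std (n + 1)) / (ENNReal.ofReal |(Matrix.of v).det| * volume (std (n + 1))) *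
        ((kappa (n + 1) + ENNReal.ofReal t * kappa n) * ENNReal.ofReal |(Matrix.of v).det|) := by
          gcongr
    _ = (kappa (n + 1) + ENNReal.ofReal t * kappa n) *
        ((volume (std (n + 1)) * (volume (std (n + 1)))⁻¹) *
        (ENNReal.ofReal |(Matrix.of v).det| * (ENNReal.ofReal |(Matrix.of v).det|)⁻¹)) := by
        rw [div_eq_mul_inv, ENNReal.mul_inv (Or.inl hD0) (Or.inl ENNReal.ofReal_ne_top)]
        ring
    _ = kappa (n + 1) + ENNReal.ofReal t * kappa n := by
        rw [ENNReal.mul_inv_cancel hs0 hst, ENNReal.mul_inv_cancel hD0 ENNReal.ofReal_ne_top,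
          mul_one, mul_one]

theorem relBall_sub' {d : ℕ} {K : Set (Fin d → ℝ)} (hc : Convex ℝ K) (h : ∀ x ∈ K, -x ∈ K) :
    relBall K ⊆ K := Pool.Agent.Results.MP_ccd96b_co.MassMax.relBall_sub hc h

theorem mass_ballT {n : ℕ} {t : ℝ} (ht : 0 ≤ t) :
    ∃ p : Fin (n + 1) → ℝ, p ∈ t • relBall (eball (n + 1)) ∧
    kappa (n + 1) + ENNReal.ofReal t * kappa n ≤
      massVol (relBall (eball (n + 1))) (convexHull ℝ (eball (n + 1) ∪ (p +ᵥ eball (n + 1)))) := by
  have he : (Pi.single 0 1 : Fin (n + 1) → ℝ) ∈ eball (n + 1) := by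
    show ∑ i, (Pi.single 0 1 : Fin (n + 1) → ℝ) i ^ 2 ≤ 1
    rw [Fin.sum_univ_succ]
    rw [Pi.single_eq_same]
    simp
  refine ⟨Pi.single 0 t, ⟨Pi.single 0 1, sub_relBall eball_neg he, ?_⟩, ?_⟩
  · show t • (Pi.single 0 1 : Fin (n + 1) → ℝ) = Pi.single 0 t
    rw [← Pi.single_smul, smul_eq_mul, mul_one]
  · obtain ⟨v, hv, hpos, hmax⟩ := exists_max (eball_body (n + 1))
    have hD : |(Matrix.of v).det| ≤ 1 :=
      det_eball v fun i => relBall_sub' (eball_convex _) eball_neg (hv i)
    have hs0 : volume (std (n + 1)) ≠ 0 :=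
      (Measure.measure_pos_of_nonempty_interior volume
        (std_body (Nat.succ_pos n)).interior_nonempty).ne'
    have hst : volume (std (n + 1)) ≠ ⊤ := (std_body (Nat.succ_pos n)).isCompact.measure_lt_top.ne
    have h1 : maxCross (relBall (eball (n + 1))) ≤ volume (std (n + 1)) := by
      rw [hmax]
      calc ENNReal.ofReal |(Matrix.of v).det| * volume (std (n + 1))
          ≤ ENNReal.ofReal 1 * volume (std (n + 1)) := by gcongr
        _ = volume (std (n + 1)) := by rw [ENNReal.ofReal_one, one_mul]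
    have h2 : volume (eball (n + 1)) + ENNReal.ofReal t * volume (eball n) ≤
        volume (convexHull ℝ (eball (n + 1) ∪ ((Pi.single 0 t : Fin (n + 1) → ℝ) +ᵥ
          eball (n + 1)))) := by
      have h3 := hull_geT (eball_compact (n + 1)) (eball_convex (n + 1)) ht
      rwa [proj_eball] at h3
    unfold massVol
    rw [← vol_std (Nat.succ_pos n)]
    calc kappa (n + 1) + ENNReal.ofReal t * kappa n
        = volume (std (n + 1)) / volume (std (n + 1)) *
          (kappa (n + 1) + ENNReal.ofReal t * kappa n) := by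
          rw [ENNReal.div_self hs0 hst, one_mul]
      _ ≤ _ := by
          gcongr
          exact h2

/-! ### Gromov's mass* -/

theorem vol_le_minBox' {d : ℕ} (K : Set (Fin d → ℝ)) : volume (relBall K) ≤ minBox (relBall K) :=
  le_iInf fun _ => le_iInf fun _ => le_iInf fun h => measure_mono h

theorem star_hullT {n : ℕ} {K : Set (Fin (n + 1) → ℝ)} (hK : IsConvexBody K) {t : ℝ}
    (ht : 0 ≤ t) {p : Fin (n + 1) → ℝ} (hp : p ∈ t • relBall K) :
    volume (convexHull ℝ (K ∪ (p +ᵥ K))) ≤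
      ENNReal.ofReal (1 + t * (n + 1) / 2) * volume (relBall K) := by
  obtain ⟨A, he0, hb, hrel, hle⟩ := lin hK ht hp
  have e1 : (Fin.cons (-1) 0 : Fin (n + 1) → ℝ) = -(Pi.single 0 1) := by
    ext i
    refine Fin.cases ?_ ?_ i
    · simp
    · intro j; simp
  have e2 : (Fin.cons (-1 + 2) 0 : Fin (n + 1) → ℝ) = Pi.single 0 1 := by
    ext i
    refine Fin.cases ?_ ?_ i
    · simp
      norm_num
    · intro j; simp
  have h2 := vol_proj_le hb.isCompact hb.convex (a := 0) (t₀ := -1)
    (by rw [e1]; exact relBall_neg he0) (by rw [e2]; exact he0)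
  have h3 : volume (proj (relBall (A.symm '' K))) ≤
      ENNReal.ofReal ((n + 1) / 2) * volume (relBall (A.symm '' K)) := by
    calc volume (proj (relBall (A.symm '' K)))
        = ENNReal.ofReal ((n + 1) / 2) *
          (ENNReal.ofReal (2 / (n + 1)) * volume (proj (relBall (A.symm '' K)))) := by
          rw [← mul_assoc, ← ENNReal.ofReal_mul (by positivity)]
          have : ((n : ℝ) + 1) / 2 * (2 / (n + 1)) = 1 := by field_simp
          rw [this, ENNReal.ofReal_one, one_mul]
      _ ≤ _ := by gcongr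
  calc volume (convexHull ℝ (K ∪ (p +ᵥ K)))
      ≤ ENNReal.ofReal |LinearMap.det (A : (Fin (n + 1) → ℝ) →ₗ[ℝ] _)| *
          (volume (relBall (A.symm '' K)) +
            ENNReal.ofReal t * volume (proj (relBall (A.symm '' K)))) := hle
    _ ≤ ENNReal.ofReal |LinearMap.det (A : (Fin (n + 1) → ℝ) →ₗ[ℝ] _)| *
          (volume (relBall (A.symm '' K)) + ENNReal.ofReal t *
            (ENNReal.ofReal ((n + 1) / 2) * volume (relBall (A.symm '' K)))) := by gcongr
    _ = (1 + ENNReal.ofReal t * ENNReal.ofReal ((n + 1) / 2)) *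
          (ENNReal.ofReal |LinearMap.det (A : (Fin (n + 1) → ℝ) →ₗ[ℝ] _)| *
            volume (relBall (A.symm '' K))) := by ring
    _ = ENNReal.ofReal (1 + t * (n + 1) / 2) * volume (relBall K) := by
        rw [← Measure.addHaar_image_continuousLinearEquiv, ← hrel,
          ← ENNReal.ofReal_mul ht, ← ENNReal.ofReal_one,
          ← ENNReal.ofReal_add zero_le_one (by positivity)]
        congr 2
        ring

theorem star_upperT {n : ℕ} {K : Set (Fin (n + 1) → ℝ)} (hK : IsConvexBody K) {t : ℝ}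
    (ht : 0 ≤ t) {p : Fin (n + 1) → ℝ} (hp : p ∈ t • relBall K) :
    massStarVol (relBall K) (convexHull ℝ (K ∪ (p +ᵥ K))) ≤
      ENNReal.ofReal (2 ^ (n + 1) * (1 + t * (n + 1) / 2)) := by
  obtain ⟨h0, ht'⟩ := minBox_pos_finite hK
  unfold massStarVol
  calc ENNReal.ofReal (2 ^ (n + 1)) / minBox (relBall K) * volume (convexHull ℝ (K ∪ (p +ᵥ K)))
      ≤ ENNReal.ofReal (2 ^ (n + 1)) / minBox (relBall K) *
        (ENNReal.ofReal (1 + t * (n + 1) / 2) * minBox (relBall K)) := by
        gcongr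
        refine (star_hullT hK ht hp).trans ?_
        gcongr
        exact vol_le_minBox' K
    _ = ENNReal.ofReal (2 ^ (n + 1)) * ENNReal.ofReal (1 + t * (n + 1) / 2) *
        (minBox (relBall K) * (minBox (relBall K))⁻¹) := by
        rw [div_eq_mul_inv]; ring
    _ = ENNReal.ofReal (2 ^ (n + 1) * (1 + t * (n + 1) / 2)) := by
        rw [ENNReal.mul_inv_cancel h0 ht', mul_one, ← ENNReal.ofReal_mul (by positivity)]

theorem vol_cube_segT (n : ℕ) {t : ℝ} (ht : 0 ≤ t) :
    volume (cube (n + 1) + segment ℝ 0 (fun _ => t)) =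
      ENNReal.ofReal (2 ^ (n + 1) * (1 + t * (n + 1) / 2)) := by
  have hA : sh n (Pi.single 0 t) = fun _ => t := by
    rw [sh_apply]
    ext i
    refine Fin.cases ?_ (fun k => ?_) i
    · simp
    · simp
  have hc1 : IsCompact ((sh n).symm '' cube (n + 1)) :=
    (cube_compact _).image (sh n).symm.continuous
  have hc2 : Convex ℝ ((sh n).symm '' cube (n + 1)) :=
    (cube_convex _).linear_image ((sh n).symm : (Fin (n + 1) → ℝ) →ₗ[ℝ] (Fin (n + 1) → ℝ))
  have h3 : volume ((sh n).symm '' cube (n + 1)) = ENNReal.ofReal (2 ^ (n + 1)) := by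
    have h4 := Measure.addHaar_image_continuousLinearEquiv (volume : Measure (Fin (n + 1) → ℝ))
      (sh n) ((sh n).symm '' cube (n + 1))
    rw [det_sh, ENNReal.ofReal_one, one_mul, Set.image_image] at h4
    rw [← h4]
    simp only [ContinuousLinearEquiv.apply_symm_apply, image_id', vol_cube]
  rw [vol_imageT (sh n) _ _ ht hA, det_sh, ENNReal.ofReal_one, one_mul, vol_add_segT hc1 hc2 ht, h3,
    proj_cube, measure_vadd, vol_cube_seg, ← ENNReal.ofReal_mul ht,
    ← ENNReal.ofReal_add (by positivity) (by positivity)]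
  congr 1
  ring

theorem star_cubeT {n : ℕ} {t : ℝ} (ht : 0 ≤ t) :
    ∃ p : Fin (n + 1) → ℝ, p ∈ t • relBall (cube (n + 1)) ∧
    ENNReal.ofReal (2 ^ (n + 1) * (1 + t * (n + 1) / 2)) ≤
      massStarVol (relBall (cube (n + 1))) (convexHull ℝ (cube (n + 1) ∪ (p +ᵥ cube (n + 1)))) := by
  refine ⟨fun _ => t, ⟨fun _ => 1, sub_relBall cube_neg (fun i => by norm_num), ?_⟩, ?_⟩
  · show t • (fun _ => (1:ℝ) : Fin (n + 1) → ℝ) = fun _ => t
    ext i
    simp
  · have h1 : minBox (relBall (cube (n + 1))) ≤ ENNReal.ofReal (2 ^ (n + 1)) := by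
      rw [← vol_cube, ← cube_parallelotope]
      refine iInf_le_of_le 0 (iInf_le_of_le _ (iInf_le_of_le ?_ le_rfl))
      rw [cube_parallelotope]
      exact relBall_sub' (cube_convex _) cube_neg
    have h2 : ENNReal.ofReal (2 ^ (n + 1) * (1 + t * (n + 1) / 2)) ≤
        volume (convexHull ℝ (cube (n + 1) ∪ ((fun _ => t : Fin (n + 1) → ℝ) +ᵥ
          cube (n + 1)))) := by
      refine le_trans ?_ (measure_mono (sub_hull _ _))
      rw [vol_cube_segT n ht]
    have h0 : ENNReal.ofReal ((2:ℝ) ^ (n + 1)) ≠ 0 := by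
      rw [Ne, ENNReal.ofReal_eq_zero, not_le]
      positivity
    unfold massStarVol
    calc ENNReal.ofReal (2 ^ (n + 1) * (1 + t * (n + 1) / 2))
        = ENNReal.ofReal (2 ^ (n + 1)) / ENNReal.ofReal (2 ^ (n + 1)) *
          ENNReal.ofReal (2 ^ (n + 1) * (1 + t * (n + 1) / 2)) := by
          rw [ENNReal.div_self h0 ENNReal.ofReal_ne_top, one_mul]
      _ ≤ _ := by gcongr

end Pool.Agent.Y514.TL
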